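import Mathlib

/-!
# Block CL (closed surface groups), abstract part

A group `P` generated by the images of `iA : FA →* P`, `iB : FB →* P` which agree on `cA`, `cB`,
with a family of bent representations: `ρ s (iA x) = α x`, `ρ s (iB y) = Z_s β(y) Z_s⁻¹`,
`Z_s = diag (u s, 1)`.
-/

namespace CongCL

open Matrix Polynomial

/-- A bending datum. -/
structure Bend (P FA FB R : Type*) [Group P] [Group FA] [Group FB] [CommRing R] where
  iA : FA →* P
  iB : FB →* P
  cA : FA
  cB : FB
  hc : iA cA = iB cB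
  gen : ∀ S : Subgroup P, iA.range ≤ S → iB.range ≤ S → S = ⊤
  α : FA →* Matrix (Fin 2) (Fin 2) R
  β : FB →* Matrix (Fin 2) (Fin 2) R
  u : ℕ → R
  v : ℕ → R
  huv : ∀ s, u s * v s = 1
  hu : Function.Injective u
  ρ : ℕ → P →* Matrix (Fin 2) (Fin 2) R
  hρA : ∀ s x, ρ s (iA x) = α x
  hρB : ∀ s y, ρ s (iB y) = !![β y 0 0, u s * β y 0 1; v s * β y 1 0, β y 1 1]
  hA : ∀ x, α x 1 0 = 0 → x ∈ Subgroup.zpowers cA
  hB : ∀ y, β y 0 1 = 0 → y ∈ Subgroup.zpowers cB

namespace Bend

variable {P FA FB R : Type*} [Group P] [Group FA] [Group FB] [CommRing R] [IsDomain R]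
  (D : Bend P FA FB R)

/-- The product of an alternating word. -/
def pr (L : List (FA × FB)) : P := (L.map fun p => D.iA p.1 * D.iB p.2).prod

@[simp] lemma pr_nil : D.pr [] = 1 := rfl

@[simp] lemma pr_cons (p : FA × FB) (L : List (FA × FB)) :
    D.pr (p :: L) = D.iA p.1 * D.iB p.2 * D.pr L := by
  simp [pr]

lemma pr_append (L M : List (FA × FB)) : D.pr (L ++ M) = D.pr L * D.pr M := by
  simp [pr]

/-- All letters are outside the amalgamated subgroup. -/
def Good (L : List (FA × FB)) : Prop :=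
  ∀ p ∈ L, p.1 ∉ Subgroup.zpowers D.cA ∧ p.2 ∉ Subgroup.zpowers D.cB

/-- The polynomial matrix of one syllable pair. -/
noncomputable def M (x : FA) (y : FB) : Matrix (Fin 2) (Fin 2) R[X] :=
  !![C (D.α x 0 0), C (D.α x 0 1); C (D.α x 1 0), C (D.α x 1 1)] *
    !![X * C (D.β y 0 0), X ^ 2 * C (D.β y 0 1); C (D.β y 1 0), X * C (D.β y 1 1)]

/-- The polynomial matrix of a word. -/
noncomputable def Q : List (FA × FB) → Matrix (Fin 2) (Fin 2) R[X]
  | [] => 1
  | p :: L => D.M p.1 p.2 * Q L

lemma M_eval (s : ℕ) (x : FA) (y : FB) :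
    (D.M x y).map (eval (D.u s)) = D.u s • D.ρ s (D.iA x * D.iB y) := by
  have h1 : D.u s * D.v s = 1 := D.huv s
  rw [map_mul, D.hρA, D.hρB]
  ext i j
  fin_cases i <;> fin_cases j <;>
    simp [M, Matrix.mul_apply, Fin.sum_univ_two, eval_add, eval_mul, eval_pow]
  · linear_combination (-(D.α x 0 1 * D.β y 1 0)) * h1
  · ring
  · linear_combination (-(D.α x 1 1 * D.β y 1 0)) * h1
  · ring

lemma Q_eval (s : ℕ) (L : List (FA × FB)) :
    (D.Q L).map (eval (D.u s)) = D.u s ^ L.length • D.ρ s (D.pr L) := by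
  induction L with
  | nil =>
    ext i j
    fin_cases i <;> fin_cases j <;> simp [Q]
  | cons p L ih =>
    have h1 : (D.Q (p :: L)).map (eval (D.u s)) =
        (D.M p.1 p.2).map (eval (D.u s)) * (D.Q L).map (eval (D.u s)) := by
      rw [Q]
      exact Matrix.map_mul (f := evalRingHom (D.u s))
    rw [h1, ih, M_eval, pr_cons, map_mul (D.ρ s) (D.iA p.1 * D.iB p.2)]
    rw [Matrix.smul_mul, Matrix.mul_smul, smul_smul, List.length_cons, pow_succ, mul_comm]

lemma M_deg0 (x : FA) (y : FB) (i : Fin 2) : (D.M x y i 0).natDegree ≤ 1 := by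
  fin_cases i <;>
    simp only [M, Matrix.mul_apply, Fin.sum_univ_two, Matrix.of_apply, Matrix.cons_val',
      Matrix.cons_val_zero, Matrix.cons_val_one, Matrix.cons_val_fin_one, Fin.zero_eta,
      Fin.mk_one, Fin.isValue] <;> compute_degree

lemma M_deg1 (x : FA) (y : FB) (i : Fin 2) : (D.M x y i 1).natDegree ≤ 2 := by
  fin_cases i <;>
    simp only [M, Matrix.mul_apply, Fin.sum_univ_two, Matrix.of_apply, Matrix.cons_val',
      Matrix.cons_val_zero, Matrix.cons_val_one, Matrix.cons_val_fin_one, Fin.zero_eta,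
      Fin.mk_one, Fin.isValue] <;> compute_degree

lemma M_coeff (x : FA) (y : FB) : (D.M x y 1 1).coeff 2 = D.α x 1 0 * D.β y 0 1 := by
  simp only [M, Matrix.mul_apply, Fin.sum_univ_two, Matrix.of_apply, Matrix.cons_val',
      Matrix.cons_val_zero, Matrix.cons_val_one, Matrix.cons_val_fin_one, Fin.zero_eta,
      Fin.mk_one, Fin.isValue, coeff_add, coeff_C_mul, coeff_mul_C, coeff_X_pow, coeff_X]
  simp

/-- Degree bounds. -/
lemma Q_deg (L : List (FA × FB)) (hL : D.Good L) (hne : L ≠ []) :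
    (∀ i, (D.Q L i 0).natDegree + 1 ≤ 2 * L.length) ∧
    (∀ i, (D.Q L i 1).natDegree ≤ 2 * L.length) ∧
    (D.Q L 1 1).coeff (2 * L.length) ≠ 0 := by
  induction L with
  | nil => exact absurd rfl hne
  | cons p L ih =>
    have hp := hL p (by simp)
    have ha : D.α p.1 1 0 ≠ 0 := fun h => hp.1 (D.hA _ h)
    have hb : D.β p.2 0 1 ≠ 0 := fun h => hp.2 (D.hB _ h)
    rcases L with _ | ⟨q, L⟩
    · have hQ : D.Q [p] = D.M p.1 p.2 := by simp [Q]
      rw [hQ]
      refine ⟨fun i => ?_, fun i => ?_, ?_⟩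
      · have := D.M_deg0 p.1 p.2 i
        simp only [List.length_singleton]; omega
      · have := D.M_deg1 p.1 p.2 i
        simpa using this
      · simp only [List.length_singleton, mul_one, M_coeff]
        exact mul_ne_zero ha hb
    · have hL' : D.Good (q :: L) := fun r hr => hL r (by simp at hr ⊢; tauto)
      obtain ⟨h1, h2, h3⟩ := ih hL' (by simp)
      have hQ : D.Q (p :: q :: L) = D.M p.1 p.2 * D.Q (q :: L) := rfl
      have hlen : (p :: q :: L).length = (q :: L).length + 1 := rfl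
      set n := (q :: L).length with hn
      rw [hQ, hlen]
      refine ⟨fun i => ?_, fun i => ?_, ?_⟩
      · rw [Matrix.mul_apply, Fin.sum_univ_two]
        have e1 : (D.M p.1 p.2 i 0 * D.Q (q :: L) 0 0).natDegree ≤ 2 * n + 1 :=
          (natDegree_mul_le).trans (by have := h1 0; have := D.M_deg0 p.1 p.2 i; omega)
        have e2 : (D.M p.1 p.2 i 1 * D.Q (q :: L) 1 0).natDegree ≤ 2 * n + 1 :=
          (natDegree_mul_le).trans (by have := h1 1; have := D.M_deg1 p.1 p.2 i; omega)
        have e3 := natDegree_add_le_of_degree_le e1 e2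
        omega
      · rw [Matrix.mul_apply, Fin.sum_univ_two]
        have e1 : (D.M p.1 p.2 i 0 * D.Q (q :: L) 0 1).natDegree ≤ 2 * n + 2 :=
          (natDegree_mul_le).trans (by have := h2 0; have := D.M_deg0 p.1 p.2 i; omega)
        have e2 : (D.M p.1 p.2 i 1 * D.Q (q :: L) 1 1).natDegree ≤ 2 * n + 2 :=
          (natDegree_mul_le).trans (by have := h2 1; have := D.M_deg1 p.1 p.2 i; omega)
        have e3 := natDegree_add_le_of_degree_le e1 e2
        omega
      · rw [Matrix.mul_apply, Fin.sum_univ_two, coeff_add]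
        have e1 : (D.M p.1 p.2 1 0 * D.Q (q :: L) 0 1).coeff (2 * (n + 1)) = 0 := by
          apply coeff_eq_zero_of_natDegree_lt
          refine lt_of_le_of_lt natDegree_mul_le ?_
          have := h2 0; have := D.M_deg0 p.1 p.2 1; omega
        have e2 : (D.M p.1 p.2 1 1 * D.Q (q :: L) 1 1).coeff (2 * (n + 1)) =
            (D.M p.1 p.2 1 1).coeff 2 * (D.Q (q :: L) 1 1).coeff (2 * n) := by
          have : 2 * (n + 1) = 2 + 2 * n := by ring
          rw [this]
          exact coeff_mul_add_eq_of_natDegree_le (D.M_deg1 p.1 p.2 1) (h2 1)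
        rw [e1, e2, zero_add, M_coeff]
        exact mul_ne_zero (mul_ne_zero ha hb) h3

/-- The trace of a nonempty good word is not constant in `s`. -/
theorem trace_not_const (L : List (FA × FB)) (hL : D.Good L) (hne : L ≠ []) (τ : R)
    (h : ∀ s, trace (D.ρ s (D.pr L)) = τ) : False := by
  obtain ⟨h1, h2, h3⟩ := D.Q_deg L hL hne
  set n := L.length with hn
  have hpos : 0 < n := List.length_pos_iff.mpr hne
  have key : D.Q L 0 0 + D.Q L 1 1 = C τ * X ^ n := by
    apply Polynomial.eq_of_infinite_eval_eq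
    apply Set.Infinite.mono (s := Set.range D.u)
    · rintro _ ⟨s, rfl⟩
      have e := D.Q_eval s L
      have e0 := congrFun (congrFun e 0) 0
      have e1 := congrFun (congrFun e 1) 1
      simp only [Matrix.map_apply, Matrix.smul_apply, smul_eq_mul] at e0 e1
      have e2 := h s
      rw [Matrix.trace_fin_two] at e2
      simp only [Set.mem_setOf_eq, eval_add, eval_mul, eval_C, eval_pow, eval_X]
      rw [e0, e1, ← mul_add, e2, mul_comm]
    · exact Set.infinite_range_of_injective D.hu
  have hc := congrArg (fun p => coeff p (2 * n)) key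
  simp only [coeff_add, coeff_C_mul, coeff_X_pow] at hc
  rw [coeff_eq_zero_of_natDegree_lt (by have := h1 0; omega : (D.Q L 0 0).natDegree < 2 * n),
    if_neg (by omega), mul_zero, zero_add] at hc
  exact h3 hc

end Bend

end CongCL
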