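import Pool.Agent.CongCL.Abs

/-!
# Block CL, abstract part 2: normal forms and consequences of constant traces
-/

set_option linter.unusedSectionVars false

namespace CongCL

open Matrix Polynomial

namespace Bend

variable {P FA FB R : Type*} [Group P] [Group FA] [Group FB] [CommRing R] [IsDomain R]
  (D : Bend P FA FB R)

lemma zpow_swap (n : ℤ) : D.iA (D.cA ^ n) = D.iB (D.cB ^ n) := by
  rw [map_zpow, map_zpow, D.hc]

/-- Every element is in the image of `iA` or of the form `iA x₀ * iB y * pr L * iA z`. -/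
theorem normal_form (h : P) :
    (∃ x, h = D.iA x) ∨ ∃ x y L z, y ∉ Subgroup.zpowers D.cB ∧ D.Good L ∧
      h = D.iA x * D.iB y * D.pr L * D.iA z := by
  set N : P → Prop := fun h => (∃ x, h = D.iA x) ∨ ∃ x y L z, y ∉ Subgroup.zpowers D.cB ∧
    D.Good L ∧ h = D.iA x * D.iB y * D.pr L * D.iA z with hN
  have hA : ∀ a h, N h → N (D.iA a * h) := by
    rintro a h (⟨x, rfl⟩ | ⟨x, y, L, z, hy, hL, rfl⟩)
    · exact Or.inl ⟨a * x, by simp⟩
    · exact Or.inr ⟨a * x, y, L, z, hy, hL, by simp [mul_assoc]⟩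
  have hBC : ∀ b ∈ Subgroup.zpowers D.cB, ∀ h, N h → N (D.iB b * h) := by
    rintro b ⟨n, rfl⟩ h hh
    have := hA (D.cA ^ n) h hh
    rwa [D.zpow_swap] at this
  have hB : ∀ b h, N h → N (D.iB b * h) := by
    intro b h hh
    by_cases hb : b ∈ Subgroup.zpowers D.cB
    · exact hBC b hb h hh
    rcases hh with ⟨x, rfl⟩ | ⟨x, y, L, z, hy, hL, rfl⟩
    · exact Or.inr ⟨1, b, [], x, hb, by simp [Good], by simp⟩
    · by_cases hx : x ∈ Subgroup.zpowers D.cA
      · obtain ⟨n, rfl⟩ := hx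
        have e : D.iB b * (D.iA (D.cA ^ n) * D.iB y * D.pr L * D.iA z) =
            D.iB (b * D.cB ^ n * y) * (D.pr L * D.iA z) := by
          rw [D.zpow_swap, map_mul, map_mul]; group
        show N (D.iB b * (D.iA (D.cA ^ n) * D.iB y * D.pr L * D.iA z))
        rw [e]
        by_cases hy' : b * D.cB ^ n * y ∈ Subgroup.zpowers D.cB
        · apply hBC _ hy'
          rcases L with _ | ⟨⟨x2, y2⟩, L⟩
          · exact Or.inl ⟨z, by simp⟩
          · have h2 := hL (x2, y2) (by simp)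
            exact Or.inr ⟨x2, y2, L, z, h2.2, fun r hr => hL r (by simp [hr]),
              by simp [mul_assoc]⟩
        · exact Or.inr ⟨1, _, L, z, hy', hL, by simp [mul_assoc]⟩
      · refine Or.inr ⟨1, b, (x, y) :: L, z, hb, ?_, by simp [mul_assoc]⟩
        intro r hr
        rcases List.mem_cons.mp hr with rfl | hr
        · exact ⟨hx, hy⟩
        · exact hL r hr
  -- the stabiliser of `N`
  let S : Subgroup P :=
    { carrier := {g | (∀ h, N h → N (g * h)) ∧ ∀ h, N h → N (g⁻¹ * h)}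
      mul_mem' := by
        rintro a b ⟨ha, ha'⟩ ⟨hb, hb'⟩
        refine ⟨fun h hh => ?_, fun h hh => ?_⟩
        · rw [mul_assoc]; exact ha _ (hb _ hh)
        · rw [_root_.mul_inv_rev, mul_assoc]; exact hb' _ (ha' _ hh)
      one_mem' := ⟨fun h hh => by simpa using hh, fun h hh => by simpa using hh⟩
      inv_mem' := by
        rintro a ⟨ha, ha'⟩
        exact ⟨ha', by simpa using ha⟩ }
  have hS : S = ⊤ := by
    apply D.gen S
    · rintro _ ⟨a, rfl⟩
      exact ⟨hA a, fun h hh => by rw [← map_inv]; exact hA _ h hh⟩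
    · rintro _ ⟨b, rfl⟩
      exact ⟨hB b, fun h hh => by rw [← map_inv]; exact hB _ h hh⟩
  have h1 : h ∈ S := hS ▸ Subgroup.mem_top h
  have h2 := h1.1 1 (Or.inl ⟨1, by simp⟩)
  rw [mul_one] at h2
  exact h2

/-- trace of a product, cyclically -/
lemma trace_comm (s : ℕ) (a b : P) : trace (D.ρ s (a * b)) = trace (D.ρ s (b * a)) := by
  rw [map_mul, map_mul, Matrix.trace_mul_comm]

/-- Core consequence. -/
lemma core {x y L z} (hy : y ∉ Subgroup.zpowers D.cB) (hL : D.Good L) (τ : R)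
    (h : ∀ s, trace (D.ρ s (D.iA x * D.iB y * D.pr L * D.iA z)) = τ) :
    z * x ∈ Subgroup.zpowers D.cA := by
  by_contra hzx
  refine D.trace_not_const ((z * x, y) :: L) ?_ (by simp) τ ?_
  · intro r hr
    rcases List.mem_cons.mp hr with rfl | hr
    · exact ⟨hzx, hy⟩
    · exact hL r hr
  · intro s
    rw [← h s, D.trace_comm s _ (D.iA z), pr_cons]
    simp only [map_mul, mul_assoc]

/-- Step 4a. -/
theorem mem_range_of_const (q : P) (p : FA) (τ τ' : R)
    (hp : ∀ w : FA, w⁻¹ * p * w ∉ Subgroup.zpowers D.cA)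
    (hq : ∀ s, trace (D.ρ s q) = τ) (hpq : ∀ s, trace (D.ρ s (D.iA p * q)) = τ') :
    ∃ x, q = D.iA x := by
  rcases D.normal_form q with h | ⟨x, y, L, z, hy, hL, rfl⟩
  · exact h
  exfalso
  have h1 := D.core hy hL τ hq
  have h2 : z * (p * x) ∈ Subgroup.zpowers D.cA := by
    refine D.core hy hL τ' (fun s => ?_)
    rw [← hpq s]
    simp only [map_mul, mul_assoc]
  apply hp x
  have h3 := Subgroup.mul_mem _ (Subgroup.inv_mem _ h1) h2
  have e : (z * x)⁻¹ * (z * (p * x)) = x⁻¹ * p * x := by group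
  rwa [e] at h3

/-- Step 4b, inductive form. -/
lemma conj_aux (τ : R) (n : ℕ) : ∀ (L : List (FA × FB)), L.length = n → D.Good L →
    ∀ (x : FA) (y : FB), y ∉ Subgroup.zpowers D.cB →
    (∀ s, trace (D.ρ s (D.iA x * D.iB y * D.pr L)) = τ) →
    (∃ a, IsConj (D.iA x * D.iB y * D.pr L) (D.iA a)) ∨
      ∃ b, IsConj (D.iA x * D.iB y * D.pr L) (D.iB b) := by
  induction n using Nat.strong_induction_on with
  | _ n ih =>
  intro L hn hL x y hy h
  have hx : x ∈ Subgroup.zpowers D.cA := by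
    have := D.core (x := x) (z := 1) hy hL τ (fun s => by
      rw [map_one, mul_one]; exact h s)
    simpa using this
  obtain ⟨k, rfl⟩ := hx
  simp only at *
  rw [D.zpow_swap, ← map_mul] at h ⊢
  rcases List.eq_nil_or_concat' L with rfl | ⟨L', ⟨x', y'⟩, rfl⟩
  · right
    exact ⟨D.cB ^ k * y, by rw [pr_nil, mul_one]⟩
  have hL' : D.Good L' := fun r hr => hL r (by simp [hr])
  have hx'y' := hL (x', y') (by simp)
  -- conjugate by the last letters
  have key : IsConj (D.iB (D.cB ^ k * y) * D.pr (L' ++ [(x', y')]))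
      (D.iA x' * D.iB (y' * (D.cB ^ k * y)) * D.pr L') := by
    rw [isConj_iff]
    refine ⟨D.iA x' * D.iB y', ?_⟩
    rw [pr_append]
    simp only [pr_cons, pr_nil, mul_one, map_mul]
    group
  have htr : ∀ s, trace (D.ρ s (D.iA x' * D.iB (y' * (D.cB ^ k * y)) * D.pr L')) = τ := by
    intro s
    obtain ⟨g, hg⟩ := isConj_iff.mp key
    rw [← h s, ← hg, D.trace_comm s _ g⁻¹, inv_mul_cancel_left]
  have hlen : L'.length < n := by simp at hn; omega
  have fin : ∀ g : P, IsConj (D.iA x' * D.iB (y' * (D.cB ^ k * y)) * D.pr L') g →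
      ((∃ a, IsConj g (D.iA a)) ∨ ∃ b, IsConj g (D.iB b)) →
      ((∃ a, IsConj (D.iB (D.cB ^ k * y) * D.pr (L' ++ [(x', y')])) (D.iA a)) ∨
      ∃ b, IsConj (D.iB (D.cB ^ k * y) * D.pr (L' ++ [(x', y')])) (D.iB b)) := by
    rintro g hg (⟨a, ha⟩ | ⟨b, hb⟩)
    · exact Or.inl ⟨a, (key.trans hg).trans ha⟩
    · exact Or.inr ⟨b, (key.trans hg).trans hb⟩
  by_cases hy' : y' * (D.cB ^ k * y) ∈ Subgroup.zpowers D.cB
  · obtain ⟨j, hj⟩ := hy'
    simp only at hj
    rw [← hj] at fin htr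
    rw [← D.zpow_swap, ← map_mul] at fin htr
    rcases L' with _ | ⟨⟨x2, y2⟩, L''⟩
    · apply fin _ (IsConj.refl _)
      left
      exact ⟨x' * D.cA ^ j, by rw [pr_nil, mul_one]⟩
    · have h2 := hL' (x2, y2) (by simp)
      have e : D.iA (x' * D.cA ^ j) * D.pr ((x2, y2) :: L'') =
          D.iA (x' * D.cA ^ j * x2) * D.iB y2 * D.pr L'' := by
        simp [mul_assoc]
      rw [e] at fin htr
      apply fin _ (IsConj.refl _)
      exact ih L''.length (by simp at hlen; omega) L'' rfl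
        (fun r hr => hL' r (by simp [hr])) _ _ h2.2 htr
  · apply fin _ (IsConj.refl _)
    exact ih L'.length hlen L' rfl hL' _ _ hy' htr

/-- Step 4b: an element with constant trace is conjugate into one of the factors. -/
theorem conj_of_const (q : P) (τ : R) (hq : ∀ s, trace (D.ρ s q) = τ) :
    (∃ a, IsConj q (D.iA a)) ∨ ∃ b, IsConj q (D.iB b) := by
  rcases D.normal_form q with ⟨x, rfl⟩ | ⟨x, y, L, z, hy, hL, rfl⟩
  · exact Or.inl ⟨x, IsConj.refl _⟩
  have key : IsConj (D.iA x * D.iB y * D.pr L * D.iA z)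
      (D.iA (z * x) * D.iB y * D.pr L) := by
    rw [isConj_iff]
    refine ⟨D.iA z, ?_⟩
    simp only [map_mul]
    group
  have htr : ∀ s, trace (D.ρ s (D.iA (z * x) * D.iB y * D.pr L)) = τ := by
    intro s
    obtain ⟨g, hg⟩ := isConj_iff.mp key
    rw [← hq s, ← hg, D.trace_comm s _ g⁻¹, inv_mul_cancel_left]
  rcases D.conj_aux τ L.length L rfl hL _ _ hy htr with ⟨a, ha⟩ | ⟨b, hb⟩
  · exact Or.inl ⟨a, key.trans ha⟩
  · exact Or.inr ⟨b, key.trans hb⟩

/-- Joint faithfulness. -/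
theorem eq_one_of_forall (hα : Function.Injective D.α) (a : FA)
    (ha : a ∉ Subgroup.zpowers D.cA) (h : P) (hh : ∀ s, D.ρ s h = 1) : h = 1 := by
  rcases D.normal_form h with ⟨x, rfl⟩ | ⟨x, y, L, z, hy, hL, rfl⟩
  · have h1 := hh 0
    rw [D.hρA] at h1
    have : x = 1 := hα (by rw [h1, map_one])
    rw [this, map_one]
  · exfalso
    apply ha
    set p : FA := z⁻¹ * a * x⁻¹ with hp
    have h1 : z * (p * x) ∈ Subgroup.zpowers D.cA := by
      refine D.core hy hL (trace (D.α p)) (fun s => ?_)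
      have e : D.iA (p * x) * D.iB y * D.pr L * D.iA z =
          D.iA p * (D.iA x * D.iB y * D.pr L * D.iA z) := by
        simp only [map_mul, mul_assoc]
      rw [e, map_mul, hh s, mul_one, D.hρA]
    have e : z * (p * x) = a := by rw [hp]; group
    rwa [e] at h1

/-- Step 6: an endomorphism preserving all traces and fixing the first factor is the identity. -/
theorem eq_id (hα : Function.Injective D.α) (a : FA) (ha : a ∉ Subgroup.zpowers D.cA)
    (hspan : ∀ M : Matrix (Fin 2) (Fin 2) R, (∀ x, trace (D.α x * M) = 0) → M = 0)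
    (φ : P →* P) (hφ : ∀ s h, trace (D.ρ s (φ h)) = trace (D.ρ s h))
    (hfix : ∀ x, φ (D.iA x) = D.iA x) (y : P) : φ y = y := by
  have h1 : ∀ s, D.ρ s (φ y) = D.ρ s y := by
    intro s
    have : D.ρ s (φ y) - D.ρ s y = 0 := by
      apply hspan
      intro x
      rw [mul_sub, trace_sub, sub_eq_zero, ← D.hρA s, ← map_mul, ← map_mul]
      have := hφ s (D.iA x * y)
      rwa [map_mul φ, hfix] at this
    exact sub_eq_zero.mp this
  have h2 : φ y * y⁻¹ = 1 := by
    apply D.eq_one_of_forall hα a ha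
    intro s
    rw [map_mul, h1 s, ← map_mul, mul_inv_cancel, map_one]
  exact mul_inv_eq_one.mp h2

/-- Step 4: an endomorphism preserving all traces and sending one good element of the first factor
into the first factor maps the first factor into itself. -/
theorem map_factor (φ : P →* P) (hφ : ∀ s h, trace (D.ρ s (φ h)) = trace (D.ρ s h))
    (a p : FA) (hp : ∀ w : FA, w⁻¹ * p * w ∉ Subgroup.zpowers D.cA)
    (hap : φ (D.iA a) = D.iA p) (x : FA) : ∃ x', φ (D.iA x) = D.iA x' := by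
  apply D.mem_range_of_const (φ (D.iA x)) p (trace (D.α x)) (trace (D.α (a * x))) hp
  · intro s
    rw [hφ, D.hρA]
  · intro s
    rw [← hap, ← map_mul, ← map_mul, hφ, D.hρA]

end Bend

end CongCL
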