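import Pool.Agent.CongCL.Final

/-!
# Block CL: all genera
-/

namespace CongCL

open Matrix Pool.Agent.Lvl MonoidAlgebra

instance surfaceGroup_fg (g : ℕ) : Group.FG (SurfaceGroup g) := by
  rw [Group.fg_iff]
  refine ⟨Set.range (PresentedGroup.of (rels := {surfRel g})), ?_, Set.finite_range _⟩
  exact PresentedGroup.closure_range_of _

/-! ### genus one -/

/-- the unit `1 + X` -/
noncomputable def U : Rˣ :=
  ⟨1 + PowerSeries.X, (1 + PowerSeries.X)⁻¹, PowerSeries.mul_inv_cancel _ (by simp),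
    by rw [mul_comm]; exact PowerSeries.mul_inv_cancel _ (by simp)⟩

lemma U_pow (n : ℕ) : ∃ w : R, (1 + PowerSeries.X : R) ^ n =
    1 + PowerSeries.X * (n : R) + PowerSeries.X ^ 2 * w := by
  induction n with
  | zero => exact ⟨0, by simp⟩
  | succ n ih =>
    obtain ⟨w, hw⟩ := ih
    refine ⟨w + (n : R) + PowerSeries.X * w, ?_⟩
    rw [pow_succ, hw]; push_cast; ring

lemma U_nat (n : ℕ) (h : U ^ n = 1) : n = 0 := by
  have h1 := congrArg Units.val h
  rw [Units.val_pow_eq_pow_val, Units.val_one] at h1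
  obtain ⟨w, hw⟩ := U_pow n
  have h2 : (1 : R) + PowerSeries.X * (n : R) + PowerSeries.X ^ 2 * w = 1 := by
    rw [← hw]; exact h1
  have h3 : PowerSeries.X * ((n : R) + PowerSeries.X * w) = PowerSeries.X * 0 := by
    linear_combination h2
  have h4 := mul_left_cancel₀ (PowerSeries.X_ne_zero) h3
  have h5 := congrArg (PowerSeries.constantCoeff (R := ℚ)) h4
  simpa using h5

lemma U_inj (n : ℤ) (h : U ^ n = 1) : n = 0 := by
  rcases Int.eq_nat_or_neg n with ⟨m, rfl | rfl⟩
  · rw [zpow_natCast] at h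
    simp [U_nat m h]
  · rw [_root_.zpow_neg, zpow_natCast, inv_eq_one] at h
    simp [U_nat m h]

lemma U_const (n : ℤ) : PowerSeries.constantCoeff ((U ^ n : Rˣ) : R) = 1 := by
  let c : Rˣ →* ℚˣ := Units.map (PowerSeries.constantCoeff (R := ℚ)).toMonoidHom
  have hU : c U = 1 := by
    apply Units.ext
    simp [c, U]
  have h : c (U ^ n) = 1 := by rw [map_zpow, hU, _root_.one_zpow]
  exact congrArg Units.val h

/-- A character with values in the powers of `1 + X` is constant on classes of `CC`. -/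
lemma char_eq {H : Type} [Group H] (f : H →* Rˣ) (hf : ∀ h, ∃ n : ℤ, f h = U ^ n) {h h' : H}
    (hc : CC h h') : f h = f h' := by
  let χ : H →* Matrix (Fin 2) (Fin 2) R :=
    { toFun := fun h => !![(f h : R), 0; 0, 1]
      map_one' := by rw [map_one, Units.val_one, Matrix.one_fin_two]
      map_mul' := by
        intro x y
        rw [map_mul, Units.val_mul, Matrix.mul_fin_two]
        apply mk_eq <;> ring }
  have hχ : ∀ h, UP (χ h) := by
    intro h
    have h1 : (PowerSeries.X : R) ∣ (f h : R) - 1 := by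
      obtain ⟨n, hn⟩ := hf h
      rw [PowerSeries.X_dvd_iff, map_sub, hn, U_const, map_one, sub_self]
    obtain ⟨a, ha⟩ := h1
    refine ⟨⟨a, ?_⟩, ⟨0, ?_⟩, ⟨0, ?_⟩⟩
    · show (f h : R) = _
      linear_combination ha
    · show (1 : R) = _
      simp
    · show (0 : R) = _
      simp
  have h1 := trace_eq_of_CC χ hχ hc
  have h2 : trace !![(f h : R), 0; 0, 1] = trace !![(f h' : R), 0; 0, 1] := h1
  rw [Matrix.trace_fin_two_of, Matrix.trace_fin_two_of] at h2
  exact Units.ext (add_right_cancel h2)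

lemma torus_form (h : SurfaceGroup 1) : ∃ m n : ℤ,
    h = (PresentedGroup.of (0, false)) ^ m * (PresentedGroup.of (0, true)) ^ n := by
  set a : SurfaceGroup 1 := PresentedGroup.of (0, false) with ha
  set b : SurfaceGroup 1 := PresentedGroup.of (0, true) with hb
  have hab : Commute a b := by
    have h1 : (PresentedGroup.mk {surfRel 1} (surfRel 1) : SurfaceGroup 1) = 1 :=
      PresentedGroup.one_of_mem (by simp)
    have h2 : a * b * a⁻¹ * b⁻¹ = 1 := by
      rw [← h1]
      simp only [surfRel, List.ofFn_succ, List.ofFn_zero, List.prod_cons, List.prod_nil, mul_one,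
        map_mul, map_inv]
      rfl
    show a * b = b * a
    rw [mul_inv_eq_one, mul_inv_eq_iff_eq_mul] at h2
    exact h2
  let S : Subgroup (SurfaceGroup 1) :=
    { carrier := {h | ∃ m n : ℤ, h = a ^ m * b ^ n}
      mul_mem' := by
        rintro _ _ ⟨m, n, rfl⟩ ⟨m', n', rfl⟩
        refine ⟨m + m', n + n', ?_⟩
        rw [_root_.zpow_add, _root_.zpow_add]
        calc a ^ m * b ^ n * (a ^ m' * b ^ n') = a ^ m * (b ^ n * a ^ m') * b ^ n' := by
              simp only [mul_assoc]
          _ = a ^ m * (a ^ m' * b ^ n) * b ^ n' := by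
              rw [(hab.symm.zpow_zpow n m').eq]
          _ = _ := by simp only [mul_assoc]
      one_mem' := ⟨0, 0, by simp⟩
      inv_mem' := by
        rintro _ ⟨m, n, rfl⟩
        refine ⟨-m, -n, ?_⟩
        rw [_root_.mul_inv_rev, _root_.zpow_neg, _root_.zpow_neg]
        exact ((hab.zpow_zpow m n).inv_inv.eq).symm }
  have hS : S = ⊤ := by
    rw [eq_top_iff, ← PresentedGroup.closure_range_of ({surfRel 1}), Subgroup.closure_le]
    rintro _ ⟨⟨j, e⟩, rfl⟩
    rw [Subsingleton.elim j 0]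
    rcases e with _ | _
    · exact ⟨1, 0, by simp [ha]⟩
    · exact ⟨0, 1, by simp [hb]⟩
  have : h ∈ S := hS ▸ Subgroup.mem_top h
  exact this

lemma torus_char (s t : Rˣ) : ∃ f : SurfaceGroup 1 →* Rˣ,
    f (PresentedGroup.of (0, false)) = s ∧ f (PresentedGroup.of (0, true)) = t := by
  obtain ⟨f, hf, -⟩ := exists_glue (k := 0) (FreeGroup.lift ![s, t]) 1 (by
    simp [cA, cB, surfRel])
  refine ⟨f, ?_, ?_⟩
  · have := hf (FreeGroup.of 0)
    simpa [iA] using this
  · have := hf (FreeGroup.of 1)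
    simpa [iA] using this

theorem torus_eq_of_CC {h h' : SurfaceGroup 1} (hc : CC h h') : h = h' := by
  obtain ⟨m, n, hmn⟩ := torus_form h
  obtain ⟨m', n', hmn'⟩ := torus_form h'
  obtain ⟨f, hf1, hf2⟩ := torus_char U 1
  obtain ⟨f', hf1', hf2'⟩ := torus_char 1 U
  have e1 : ∀ h, ∃ n : ℤ, f h = U ^ n := by
    intro h
    obtain ⟨m, n, rfl⟩ := torus_form h
    exact ⟨m, by rw [map_mul, map_zpow, map_zpow, hf1, hf2, _root_.one_zpow, mul_one]⟩
  have e2 : ∀ h, ∃ n : ℤ, f' h = U ^ n := by
    intro h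
    obtain ⟨m, n, rfl⟩ := torus_form h
    exact ⟨n, by rw [map_mul, map_zpow, map_zpow, hf1', hf2', _root_.one_zpow, one_mul]⟩
  have h1 := char_eq f e1 hc
  have h2 := char_eq f' e2 hc
  rw [hmn, hmn', map_mul, map_mul, map_zpow, map_zpow, map_zpow, map_zpow, hf1, hf2,
    _root_.one_zpow, _root_.one_zpow, mul_one, mul_one] at h1
  rw [hmn, hmn', map_mul, map_mul, map_zpow, map_zpow, map_zpow, map_zpow, hf1', hf2',
    _root_.one_zpow, _root_.one_zpow, one_mul, one_mul] at h2
  have h3 : m - m' = 0 := U_inj _ (by rw [_root_.zpow_sub, h1, mul_inv_cancel])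
  have h4 : n - n' = 0 := U_inj _ (by rw [_root_.zpow_sub, h2, mul_inv_cancel])
  rw [hmn, hmn', show m = m' by omega, show n = n' by omega]

lemma sphere_trivial (h : SurfaceGroup 0) : h = 1 := by
  have h1 : h ∈ Subgroup.closure (Set.range (PresentedGroup.of (rels := {surfRel 0}))) := by
    rw [PresentedGroup.closure_range_of]; trivial
  have h2 : Set.range (PresentedGroup.of (rels := {surfRel 0})) = ∅ := by
    rw [Set.range_eq_empty_iff]
    exact ⟨fun p => p.1.elim0⟩
  rw [h2, Subgroup.closure_empty, Subgroup.mem_bot] at h1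
  exact h1

/-- THEOREM CL for all genera. -/
theorem inner_of_CC' (g : ℕ) (φ : SurfaceGroup g →* SurfaceGroup g)
    (hφ : ∀ h, CC (φ h) h) : ∃ w, ∀ x, φ x = w * x * w⁻¹ := by
  rcases g with _ | _ | g
  · exact ⟨1, fun x => by rw [sphere_trivial x, sphere_trivial (φ 1)]; simp⟩
  · refine ⟨1, fun x => ?_⟩
    have h := torus_eq_of_CC (hφ x)
    rw [h, one_mul, inv_one, mul_one]
  · exact inner_of_CC (by omega) φ hφ

/-- (RU) for all genera. -/
theorem surf_resN' (g : ℕ) (h : SurfaceGroup g) (hh : h ≠ 1) :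
    ∃ n, single h (1 : ℚ) - 1 ∉ Fil ℚ (SurfaceGroup g) n := by
  rcases g with _ | _ | g
  · exact absurd (sphere_trivial h) hh
  · by_contra hcon
    push Not at hcon
    have hc : CC h 1 := fun n => Submodule.mem_sup_left (hcon n)
    exact hh (torus_eq_of_CC hc)
  · exact surf_resN (by omega) h hh

end CongCL
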