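import Pool.Agent.CongCL.Reps

/-!
# Block CL: the bending datum of a surface group
-/

namespace CongCL

open Matrix

lemma common_scale (s : ℕ) : ∃ v : R, (1 + PowerSeries.X * (s : R)) * v = 1 ∧
    ∃ w, v = 1 + PowerSeries.X * w := by
  refine ⟨(1 + PowerSeries.X * (s : R))⁻¹, PowerSeries.mul_inv_cancel _ (by simp), ?_⟩
  refine ⟨-(s : R) * (1 + PowerSeries.X * (s : R))⁻¹, ?_⟩
  have h : (1 + PowerSeries.X * (s : R)) * (1 + PowerSeries.X * (s : R))⁻¹ = 1 :=
    PowerSeries.mul_inv_cancel _ (by simp)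
  linear_combination h

/-- The eigenvalue of the inverse. -/
lemma mu_form (k : ℚ) (lam mu : R) (hlm : lam * mu = 1)
    (h : ∃ w, lam = 1 + PowerSeries.X * PowerSeries.C k + PowerSeries.X ^ 2 * w) :
    ∃ w, mu = 1 + PowerSeries.X * PowerSeries.C (-k) + PowerSeries.X ^ 2 * w := by
  obtain ⟨w, hw⟩ := h
  refine ⟨PowerSeries.C k ^ 2 * mu + PowerSeries.X * PowerSeries.C k * w * mu - w * mu, ?_⟩
  rw [map_neg]
  have h1 : mu = 1 - PowerSeries.X * PowerSeries.C k * mu - PowerSeries.X ^ 2 * w * mu := by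
    rw [hw] at hlm; linear_combination hlm
  linear_combination (1 - PowerSeries.X * PowerSeries.C k) * h1

theorem exists_bend (k : ℕ) :
    ∃ D : Bend (SurfaceGroup (k + 2)) (FreeGroup (Fin 2)) (FreeGroup (Fin (k + 1) × Bool)) R,
      D.iA = iA ∧ D.iB = iB ∧ D.cA = cA ∧ D.cB = cB ∧ Function.Injective D.α ∧
      (∀ M : Matrix (Fin 2) (Fin 2) R, (∀ x, trace (D.α x * M) = 0) → M = 0) ∧
      ∀ s h, UP (D.ρ s h) := by
  obtain ⟨κ, hκ, hnear⟩ := near_surfRel k
  -- the boundary of the second factor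
  set fB : FreeGroup (Fin (k + 1) × Bool) →* Matrix.SpecialLinearGroup (Fin 2) R :=
    (Matrix.SpecialLinearGroup.map (Polynomial.coeToPowerSeries.ringHom (R := ℚ))).comp
      (FreeGroup.lift fun p => gen (pp p) (qq p)) with hfB
  have hbB : bB (k + 1) = (toMat R).comp fB := rfl
  have hTB : Near (-κ) (bB (k + 1) cB) := near_inv fB _ hnear
  have hdB : (bB (k + 1) cB) 0 0 * (bB (k + 1) cB) 1 1 -
      (bB (k + 1) cB) 0 1 * (bB (k + 1) cB) 1 0 = 1 := det_toMat fB _
  have hκ' : -κ ≠ 0 := neg_ne_zero.mpr hκ.ne'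
  obtain ⟨th, lam, mu, ⟨w, hw⟩, htr, hlm, hsum, hlam⟩ := exists_theta (-κ) hκ' _ hTB hdB
  obtain ⟨GB, GB', hB1, hB2, hB3, hB4, hB5⟩ :=
    diag (-κ) hκ' _ hTB hdB lam mu hlm hsum hlam
  -- the first factor
  have hC2 : PowerSeries.C (1 / 2 : ℚ) * 2 = (1 : R) := by
    have : (2 : R) = PowerSeries.C 2 := by rw [map_ofNat]
    rw [this, ← map_mul]; norm_num
  set ψ : R := PowerSeries.C (1 / 2 : ℚ) * th with hψ
  have hψ2 : 2 * ψ = th := by rw [hψ]; linear_combination th * hC2
  have hψX : ψ = PowerSeries.X * (PowerSeries.C (1 / 2 : ℚ) * PowerSeries.C (-κ) *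
      (1 + PowerSeries.X * w)) := by rw [hψ, hw]; ring
  have hψ0 : PowerSeries.constantCoeff ψ = 0 := by rw [hψX]; simp
  have hψne : ψ ≠ 0 := by
    rw [hψX]
    apply mul_ne_zero PowerSeries.X_ne_zero
    intro h
    have := congrArg (PowerSeries.constantCoeff (R := ℚ)) h
    simp at this
    exact hκ.ne' this
  have hTA : Near (-κ) (aA ψ cA) := by
    rw [aA_cA]
    refine ⟨⟨PowerSeries.C (-κ) * w + (PowerSeries.C (-κ) * (1 + PowerSeries.X * w)) ^ 2, ?_⟩,
      ⟨-(2 * (PowerSeries.C (-κ) * (1 + PowerSeries.X * w))), ?_⟩,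
      ⟨PowerSeries.C (1 / 2 : ℚ) * (PowerSeries.C (-κ) * (1 + PowerSeries.X * w)) ^ 2, ?_⟩,
      ⟨-(PowerSeries.C (-κ) * w), ?_⟩⟩
    · simp only [Matrix.of_apply, Matrix.cons_val', Matrix.cons_val_zero, Matrix.cons_val_one,
        Matrix.cons_val_fin_one]
      have : 1 + 2 * ψ + 4 * ψ ^ 2 = 1 + (2 * ψ) + (2 * ψ) ^ 2 := by ring
      rw [this, hψ2, hw]; ring
    · simp only [Matrix.of_apply, Matrix.cons_val', Matrix.cons_val_zero, Matrix.cons_val_one,
        Matrix.cons_val_fin_one]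
      have : -(4 * ψ) = -2 * (2 * ψ) := by ring
      rw [this, hψ2, hw]; ring
    · simp only [Matrix.of_apply, Matrix.cons_val', Matrix.cons_val_zero, Matrix.cons_val_one,
        Matrix.cons_val_fin_one]
      have : 2 * ψ ^ 2 = PowerSeries.C (1 / 2 : ℚ) * (2 * ψ) ^ 2 := by
        linear_combination (-2 * ψ ^ 2) * hC2
      rw [this, hψ2, hw]; ring
    · simp only [Matrix.of_apply, Matrix.cons_val', Matrix.cons_val_zero, Matrix.cons_val_one,
        Matrix.cons_val_fin_one]
      rw [hψ2, hw]; ring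
  have hdA : (aA ψ cA) 0 0 * (aA ψ cA) 1 1 - (aA ψ cA) 0 1 * (aA ψ cA) 1 0 = 1 := by
    rw [aA_cA]
    simp only [Matrix.of_apply, Matrix.cons_val', Matrix.cons_val_zero, Matrix.cons_val_one,
        Matrix.cons_val_fin_one]
    ring
  have hsumA : lam + mu = (aA ψ cA) 0 0 + (aA ψ cA) 1 1 := by
    rw [hsum, htr, aA_cA]
    simp only [Matrix.of_apply, Matrix.cons_val', Matrix.cons_val_zero, Matrix.cons_val_one,
        Matrix.cons_val_fin_one]
    rw [← hψ2]; ring
  obtain ⟨GA, GA', hA1, hA2, hA3, hA4, hA5⟩ :=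
    diag (-κ) hκ' _ hTA hdA lam mu hlm hsumA hlam
  set α : FreeGroup (Fin 2) →* Matrix (Fin 2) (Fin 2) R := (cj GA GA' hA1 hA2).comp (aA ψ) with hα
  set β : FreeGroup (Fin (k + 1) × Bool) →* Matrix (Fin 2) (Fin 2) R :=
    (cj GB GB' hB1 hB2).comp (bB (k + 1)) with hβ
  have hαc : α cA = !![lam, 0; 0, mu] := hA5
  have hβc : β cB = !![lam, 0; 0, mu] := hB5
  have hαi : Function.Injective α := (cj_inj GA GA' hA1 hA2).comp (aA_inj ψ hψ0 hψne)
  have hβi : Function.Injective β := (cj_inj GB GB' hB1 hB2).comp (bB_inj k)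
  have hαU : ∀ x, UP (α x) := fun x => UP_mul (UP_mul hA4 (aA_UP ψ ⟨_, hψX⟩ x)) hA3
  have hβU : ∀ x, UP (β x) := fun x => UP_mul (UP_mul hB4 (bB_UP _ x)) hB3
  -- bending
  choose v hv hvw using common_scale
  set u : ℕ → R := fun s => 1 + PowerSeries.X * (s : R) with hu
  have huv : ∀ s, u s * v s = 1 := hv
  have hZ1 : ∀ s, (!![v s, 0; 0, 1] : Matrix (Fin 2) (Fin 2) R) * !![u s, 0; 0, 1] = 1 := by
    intro s
    rw [Matrix.mul_fin_two, Matrix.one_fin_two]
    apply mk_eq
    · linear_combination huv s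
    · ring
    · ring
    · ring
  have hZ2 : ∀ s, (!![u s, 0; 0, 1] : Matrix (Fin 2) (Fin 2) R) * !![v s, 0; 0, 1] = 1 := by
    intro s
    rw [Matrix.mul_fin_two, Matrix.one_fin_two]
    apply mk_eq
    · linear_combination huv s
    · ring
    · ring
    · ring
  set βs : ℕ → FreeGroup (Fin (k + 1) × Bool) →* Matrix (Fin 2) (Fin 2) R := fun s =>
    (cj _ _ (hZ1 s) (hZ2 s)).comp β with hβs
  have hβs' : ∀ s y, βs s y = !![β y 0 0, u s * β y 0 1; v s * β y 1 0, β y 1 1] := by
    intro s y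
    show !![u s, 0; 0, 1] * β y * !![v s, 0; 0, 1] = _
    conv_lhs => rw [Matrix.eta_fin_two (β y)]
    rw [Matrix.mul_fin_two, Matrix.mul_fin_two]
    apply mk_eq
    · linear_combination (β y 0 0) * huv s
    · ring
    · ring
    · ring
  have hglue : ∀ s, ∃ ρ : SurfaceGroup (k + 2) →* Matrix (Fin 2) (Fin 2) R,
      (∀ x, ρ (iA x) = α x) ∧ ∀ y, ρ (iB y) = βs s y := by
    intro s
    obtain ⟨f, hf1, hf2⟩ := exists_glue (k := k + 1) α.toHomUnits (βs s).toHomUnits (by
      apply Units.ext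
      rw [MonoidHom.coe_toHomUnits, MonoidHom.coe_toHomUnits, hβs', hαc, hβc]
      simp)
    refine ⟨(Units.coeHom _).comp f, fun x => ?_, fun y => ?_⟩
    · rw [MonoidHom.comp_apply, hf1]; rfl
    · rw [MonoidHom.comp_apply, hf2]; rfl
  choose ρ hρ1 hρ2 using hglue
  let D : Bend (SurfaceGroup (k + 2)) (FreeGroup (Fin 2)) (FreeGroup (Fin (k + 1) × Bool)) R :=
    { iA := iA
      iB := iB
      cA := cA
      cB := cB
      hc := iA_cA
      gen := gen_top
      α := α
      β := β
      u := u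
      v := v
      huv := huv
      hu := by
        intro s s' h
        have h1 := congrArg (PowerSeries.coeff 1) h
        simp only [hu, map_add, PowerSeries.coeff_succ_X_mul] at h1
        simpa using h1
      ρ := ρ
      hρA := hρ1
      hρB := fun s y => by rw [hρ2, hβs']
      hA := fun x hx => star α hαi cA lam mu hαc hlm
        (fun i j h => not_rational (-κ) hκ' lam hlam i j h)
        (fun z w h => common_power z w h)
        (fun x h => mem_zpowers_of_commute cA x (fun v n h => cA_not_power v n h) h) x hx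
      hB := fun x hx => star' β hβi cB lam mu hβc hlm
        (fun i j h => not_rational (- -κ) (by simpa using hκ.ne') mu
          (mu_form (-κ) lam mu hlm hlam) i j h)
        (fun z w h => common_power z w h)
        (fun x h => mem_zpowers_of_commute cB x (fun v n h => cB_not_power v n h) h) x hx }
  refine ⟨D, rfl, rfl, rfl, rfl, hαi, ?_, ?_⟩
  · intro M hM
    set N := GA * M * GA' with hN
    have hMN : M = GA' * N * GA := by
      rw [hN]
      calc M = (GA' * GA) * M * (GA' * GA) := by rw [hA2, one_mul, mul_one]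
        _ = _ := by simp only [mul_assoc]
    have key : ∀ x, trace (aA ψ x * N) = 0 := by
      intro x
      have h1 := hM x
      have h2 : D.α x * M = GA' * (aA ψ x * GA * M) := by
        show GA' * aA ψ x * GA * M = _
        simp only [mul_assoc]
      rw [h2, Matrix.trace_mul_comm] at h1
      rw [hN, ← h1]
      simp only [mul_assoc]
    have k0 := key 1
    have k1 := key (FreeGroup.of 0)
    have k2 := key (FreeGroup.of 1)
    have k3 := key (FreeGroup.of 0 * FreeGroup.of 1)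
    rw [map_one, one_mul, Matrix.trace_fin_two] at k0
    rw [aA_0, Matrix.eta_fin_two N, Matrix.mul_fin_two, Matrix.trace_fin_two_of] at k1
    rw [aA_1, Matrix.eta_fin_two N, Matrix.mul_fin_two, Matrix.trace_fin_two_of] at k2
    rw [map_mul, aA_0, aA_1, Matrix.eta_fin_two N, Matrix.mul_fin_two, Matrix.mul_fin_two,
      Matrix.trace_fin_two_of] at k3
    have h2ne : (2 : R) ≠ 0 := by
      intro h; rw [h, mul_zero] at hC2; exact zero_ne_one hC2
    have n10 : N 1 0 = 0 := by
      apply mul_left_cancel₀ h2ne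
      linear_combination k1 - k0
    have n01 : N 0 1 = 0 := by
      apply mul_left_cancel₀ hψne
      linear_combination k2 - k0
    have n00 : N 0 0 = 0 := by
      apply mul_left_cancel₀ (mul_ne_zero h2ne hψne)
      rw [n10, n01] at k3
      linear_combination k3 - k0
    have n11 : N 1 1 = 0 := by rw [n00, zero_add] at k0; exact k0
    have hN0 : N = 0 := by
      rw [Matrix.eta_fin_two N, n00, n01, n10, n11]
      ext i j; fin_cases i <;> fin_cases j <;> rfl
    rw [hMN, hN0, mul_zero, zero_mul]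
  · intro s h
    have hS : ∀ h : SurfaceGroup (k + 2), UP (ρ s h) ∧ UP (ρ s h⁻¹) := by
      let S : Subgroup (SurfaceGroup (k + 2)) :=
        { carrier := {h | UP (ρ s h) ∧ UP (ρ s h⁻¹)}
          mul_mem' := by
            rintro a b ⟨ha, ha'⟩ ⟨hb, hb'⟩
            refine ⟨?_, ?_⟩
            · rw [map_mul]; exact UP_mul ha hb
            · rw [_root_.mul_inv_rev, map_mul]; exact UP_mul hb' ha'
          one_mem' := by
            refine ⟨?_, ?_⟩
            · rw [map_one]; exact UP_one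
            · rw [inv_one, map_one]; exact UP_one
          inv_mem' := by
            rintro a ⟨ha, ha'⟩
            exact ⟨ha', by rw [inv_inv]; exact ha⟩ }
      have hSt : S = ⊤ := by
        apply gen_top S
        · rintro _ ⟨x, rfl⟩
          exact ⟨by rw [hρ1]; exact hαU x, by rw [← map_inv, hρ1]; exact hαU _⟩
        · have hb : ∀ y, UP (βs s y) := by
            intro y
            rw [hβs']
            obtain ⟨⟨a, ha⟩, ⟨b, hb⟩, ⟨c, hc⟩⟩ := hβU y
            exact ⟨⟨a, by simp [ha]⟩, ⟨b, by simp [hb]⟩, ⟨v s * c, by simp [hc]; ring⟩⟩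
          rintro _ ⟨y, rfl⟩
          exact ⟨by rw [hρ2]; exact hb y, by rw [← map_inv, hρ2]; exact hb _⟩
      intro h
      have : h ∈ S := hSt ▸ Subgroup.mem_top h
      exact this
    exact (hS h).1

end CongCL
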