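import Mathlib

/-!
# Block CL: square roots of power series, diagonalisation of matrices close to `1`
-/

namespace CongCL

open Matrix

/-- the ring of power series -/
abbrev R := PowerSeries ℚ

open PowerSeries in
lemma exists_sqrt (f : R) (hf : ∃ g : R, f = 1 + X * g) :
    ∃ s : R, s ^ 2 = f ∧ ∃ g : R, s = 1 + X * g := by
  classical
  have h := (inferInstance : HenselianRing R (Ideal.span {(X : R)})).is_henselian
    (Polynomial.X ^ 2 - Polynomial.C f)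
    (Polynomial.monic_X_pow_sub_C f (n := 2) two_ne_zero) 1
    (by
      obtain ⟨g, rfl⟩ := hf
      simp only [Polynomial.eval_sub, Polynomial.eval_pow, Polynomial.eval_X, one_pow,
        Polynomial.eval_C]
      rw [Ideal.mem_span_singleton]
      exact ⟨-g, by ring⟩)
    (by
      have : (IsUnit (2 : R)) := by
        have h2 : (2 : R) * C (1 / 2 : ℚ) = 1 := by
          have : (2 : R) = C (2 : ℚ) := by rw [map_ofNat]
          rw [this, ← map_mul]; norm_num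
        exact IsUnit.of_mul_eq_one _ h2
      have h3 : (Polynomial.derivative (Polynomial.X ^ 2 - Polynomial.C f) : Polynomial R).eval 1
          = 2 := by
        simp; norm_num
      rw [h3]
      exact this.map _)
  obtain ⟨s, hs, hs1⟩ := h
  refine ⟨s, ?_, ?_⟩
  · have : s ^ 2 - f = 0 := by simpa [Polynomial.IsRoot] using hs
    linear_combination this
  · obtain ⟨g, hg⟩ := Ideal.mem_span_singleton.mp hs1
    exact ⟨g, by linear_combination hg⟩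

lemma mk_eq {S : Type*} {a b c d a' b' c' d' : S} (h1 : a = a') (h2 : b = b') (h3 : c = c')
    (h4 : d = d') : (!![a, b; c, d] : Matrix (Fin 2) (Fin 2) S) = !![a', b'; c', d'] := by
  rw [h1, h2, h3, h4]

/-- Matrices whose constant term is upper unipotent. -/
def UP (M : Matrix (Fin 2) (Fin 2) R) : Prop :=
  (∃ a, M 0 0 = 1 + PowerSeries.X * a) ∧ (∃ a, M 1 1 = 1 + PowerSeries.X * a) ∧
    ∃ a, M 1 0 = PowerSeries.X * a

lemma UP_mul {M N : Matrix (Fin 2) (Fin 2) R} (hM : UP M) (hN : UP N) : UP (M * N) := by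
  obtain ⟨⟨a, ha⟩, ⟨b, hb⟩, ⟨c, hc⟩⟩ := hM
  obtain ⟨⟨a', ha'⟩, ⟨b', hb'⟩, ⟨c', hc'⟩⟩ := hN
  refine ⟨⟨a + a' + PowerSeries.X * a * a' + M 0 1 * c', ?_⟩,
    ⟨b + b' + PowerSeries.X * b * b' + c * N 0 1, ?_⟩, ⟨c + c' +
      PowerSeries.X * c * a' + PowerSeries.X * b * c', ?_⟩⟩ <;>
  · rw [Matrix.mul_apply, Fin.sum_univ_two]
    simp only [ha, hb, hc, ha', hb', hc']
    ring

lemma UP_one : UP 1 := ⟨⟨0, by simp⟩, ⟨0, by simp⟩, ⟨0, by simp⟩⟩

/-- Matrices close to the identity, with parameter `k`. -/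
def Near (k : ℚ) (T : Matrix (Fin 2) (Fin 2) R) : Prop :=
  (∃ w, T 0 0 = 1 + PowerSeries.X * PowerSeries.C k + PowerSeries.X ^ 2 * w) ∧
  (∃ w, T 0 1 = PowerSeries.X * w) ∧ (∃ w, T 1 0 = PowerSeries.X ^ 2 * w) ∧
  (∃ w, T 1 1 = 1 - PowerSeries.X * PowerSeries.C k + PowerSeries.X ^ 2 * w)

lemma Near_one : Near 0 1 := ⟨⟨0, by simp⟩, ⟨0, by simp⟩, ⟨0, by simp⟩, ⟨0, by simp⟩⟩

open PowerSeries in
lemma Near_mul {k l : ℚ} {M N : Matrix (Fin 2) (Fin 2) R} (hM : Near k M) (hN : Near l N) :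
    Near (k + l) (M * N) := by
  obtain ⟨⟨a, ha⟩, ⟨b, hb⟩, ⟨c, hc⟩, ⟨d, hd⟩⟩ := hM
  obtain ⟨⟨a', ha'⟩, ⟨b', hb'⟩, ⟨c', hc'⟩, ⟨d', hd'⟩⟩ := hN
  refine ⟨⟨a + a' + C k * C l + X * C k * a' + X * C l * a + X ^ 2 * a * a' +
      X * b * c', ?_⟩,
    ⟨b' + b + X * C k * b' - X * C l * b + X ^ 2 * a * b' + X ^ 2 * d' * b, ?_⟩,
    ⟨c + c' + X * C l * c - X * C k * c' + X ^ 2 * c * a' + X ^ 2 * d * c', ?_⟩,
    ⟨d + d' + C k * C l - X * C k * d' - X * C l * d + X ^ 2 * d * d' + X * c * b', ?_⟩⟩ <;>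
  · rw [Matrix.mul_apply, Fin.sum_univ_two]
    simp only [ha, hb, hc, hd, ha', hb', hc', hd', map_add]
    ring

open PowerSeries in
/-- Diagonalisation. -/
theorem diag (k : ℚ) (hk : k ≠ 0) (T : Matrix (Fin 2) (Fin 2) R) (hT : Near k T)
    (hdet : T 0 0 * T 1 1 - T 0 1 * T 1 0 = 1) (lam mu : R) (hlm : lam * mu = 1)
    (hsum : lam + mu = T 0 0 + T 1 1) (hlam : ∃ w, lam = 1 + X * C k + X ^ 2 * w) :
    ∃ G G' : Matrix (Fin 2) (Fin 2) R, G * G' = 1 ∧ G' * G = 1 ∧ UP G ∧ UP G' ∧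
      G' * T * G = !![lam, 0; 0, mu] := by
  obtain ⟨⟨a, ha⟩, ⟨b, hb⟩, ⟨c, hc⟩, ⟨d, hd⟩⟩ := hT
  obtain ⟨l, hl⟩ := hlam
  have hmu : mu = 1 - X * C k + X ^ 2 * (a + d - l) := by
    linear_combination hsum - hl + ha + hd
  have h2k : C (2 * k) = (2 : R) * C k := by
    rw [map_mul, map_ofNat]
  set E1 : R := C (2 * k) + X * (l - d) with hE1
  set E2 : R := -C (2 * k) + X * (a + d - l - a) with hE2
  have hX : (X : R) ≠ 0 := X_ne_zero
  have hE1u : E1 * E1⁻¹ = 1 := PowerSeries.mul_inv_cancel _ (by simp [hE1, hk])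
  have hE2u : E2 * E2⁻¹ = 1 := PowerSeries.mul_inv_cancel _ (by simp [hE2, hk])
  have h1 : lam - T 1 1 = X * E1 := by rw [hl, hd, hE1, h2k]; ring
  have h2 : mu - T 0 0 = X * E2 := by rw [hmu, ha, hE2, h2k]; ring
  have hchar : (lam - T 0 0) * (lam - T 1 1) = T 0 1 * T 1 0 := by
    have : (lam - T 0 0) * (lam - T 1 1) = lam * (lam - (T 0 0 + T 1 1)) + T 0 0 * T 1 1 := by
      ring
    rw [this, ← hsum]
    linear_combination hdet - hlm
  have hchar2 : (mu - T 0 0) * (mu - T 1 1) = T 0 1 * T 1 0 := by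
    have : (mu - T 0 0) * (mu - T 1 1) = mu * (mu - (T 0 0 + T 1 1)) + T 0 0 * T 1 1 := by
      ring
    rw [this, ← hsum]
    linear_combination hdet - hlm
  set g2 : R := X * c * E1⁻¹ with hg2
  set g1 : R := b * E2⁻¹ with hg1
  have e1 : T 0 0 + T 0 1 * g2 = lam := by
    have : X * (T 0 1 * g2) = X * (lam - T 0 0) := by
      calc X * (T 0 1 * g2) = T 0 1 * (X ^ 2 * c) * E1⁻¹ := by rw [hg2]; ring
        _ = (lam - T 0 0) * (lam - T 1 1) * E1⁻¹ := by rw [← hc, hchar]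
        _ = X * (lam - T 0 0) * (E1 * E1⁻¹) := by rw [h1]; ring
        _ = X * (lam - T 0 0) := by rw [hE1u, mul_one]
    have := mul_left_cancel₀ hX this
    linear_combination this
  have e2 : T 1 0 + T 1 1 * g2 = lam * g2 := by
    have : (lam - T 1 1) * g2 = T 1 0 := by
      rw [h1, hg2, hc]
      calc X * E1 * (X * c * E1⁻¹) = X ^ 2 * c * (E1 * E1⁻¹) := by ring
        _ = X ^ 2 * c := by rw [hE1u, mul_one]
    linear_combination -this
  have e3 : T 0 0 * g1 + T 0 1 = mu * g1 := by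
    have : (mu - T 0 0) * g1 = T 0 1 := by
      rw [h2, hg1, hb]
      calc X * E2 * (b * E2⁻¹) = X * b * (E2 * E2⁻¹) := by ring
        _ = X * b := by rw [hE2u, mul_one]
    linear_combination -this
  have e4 : T 1 0 * g1 + T 1 1 = mu := by
    have : X * (T 1 0 * g1) = X * (mu - T 1 1) := by
      calc X * (T 1 0 * g1) = (X * b) * T 1 0 * E2⁻¹ := by rw [hg1]; ring
        _ = (mu - T 0 0) * (mu - T 1 1) * E2⁻¹ := by rw [← hb, hchar2]
        _ = X * (mu - T 1 1) * (E2 * E2⁻¹) := by rw [h2]; ring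
        _ = X * (mu - T 1 1) := by rw [hE2u, mul_one]
    have := mul_left_cancel₀ hX this
    linear_combination this
  set e : R := 1 - g1 * g2 with he
  have heu : e * e⁻¹ = 1 := PowerSeries.mul_inv_cancel _ (by simp [he, hg2])
  have heu' : e⁻¹ * e = 1 := by rw [mul_comm]; exact heu
  have hei : e⁻¹ = 1 + X * (g1 * (c * E1⁻¹) * e⁻¹) := by
    have : e⁻¹ = 1 + g1 * g2 * e⁻¹ := by rw [he] at heu ⊢; linear_combination heu
    rw [hg2] at this
    linear_combination this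
  refine ⟨!![1, g1; g2, 1], !![e⁻¹, -g1 * e⁻¹; -g2 * e⁻¹, e⁻¹], ?_, ?_, ?_, ?_, ?_⟩
  · rw [Matrix.mul_fin_two, Matrix.one_fin_two]
    apply mk_eq
    · linear_combination heu
    · ring
    · ring
    · linear_combination heu
  · rw [Matrix.mul_fin_two, Matrix.one_fin_two]
    apply mk_eq
    · linear_combination heu
    · ring
    · ring
    · linear_combination heu
  · exact ⟨⟨0, by simp⟩, ⟨0, by simp⟩, ⟨c * E1⁻¹, by simp [hg2, mul_assoc]⟩⟩
  · exact ⟨⟨_, by simpa using hei⟩, ⟨_, by simpa using hei⟩, ⟨-(c * E1⁻¹) * e⁻¹, by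
      simp [hg2, mul_assoc]⟩⟩
  · rw [Matrix.eta_fin_two T, Matrix.mul_fin_two, Matrix.mul_fin_two]
    apply mk_eq
    · linear_combination e⁻¹ * e1 - g1 * e⁻¹ * e2 + lam * heu
    · linear_combination e⁻¹ * e3 - g1 * e⁻¹ * e4
    · linear_combination -g2 * e⁻¹ * e1 + e⁻¹ * e2
    · linear_combination -g2 * e⁻¹ * e3 + e⁻¹ * e4 + mu * heu

open PowerSeries in
/-- The parameter `θ` and the eigenvalues of a matrix close to `1`. -/
theorem exists_theta (k : ℚ) (hk : k ≠ 0) (T : Matrix (Fin 2) (Fin 2) R) (hT : Near k T)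
    (hdet : T 0 0 * T 1 1 - T 0 1 * T 1 0 = 1) :
    ∃ th lam mu : R, (∃ w, th = X * C k * (1 + X * w)) ∧ T 0 0 + T 1 1 = 2 + th ^ 2 ∧
      lam * mu = 1 ∧ lam + mu = T 0 0 + T 1 1 ∧ (∃ w, lam = 1 + X * C k + X ^ 2 * w) := by
  obtain ⟨⟨a, ha⟩, ⟨b, hb⟩, ⟨c, hc⟩, ⟨d, hd⟩⟩ := hT
  have hX : (X : R) ≠ 0 := X_ne_zero
  have hkk : C k * C k⁻¹ = (1 : R) := by rw [← map_mul, mul_inv_cancel₀ hk, map_one]
  -- `a + d = k² + X * w`
  obtain ⟨w, hw⟩ : ∃ w, a + d = C k ^ 2 + X * w := by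
    refine ⟨b * c - C k * d + C k * a - X * a * d, ?_⟩
    have h2 : X ^ 2 * (a + d) = X ^ 2 * (C k ^ 2 + X * (b * c - C k * d + C k * a - X * a * d)) := by
      rw [ha, hb, hc, hd] at hdet
      linear_combination hdet
    exact mul_left_cancel₀ (pow_ne_zero 2 hX) h2
  obtain ⟨s, hs, ⟨g, hg⟩⟩ := exists_sqrt (1 + X * (w * C k⁻¹ ^ 2)) ⟨_, rfl⟩
  set th : R := X * C k * s with hth
  have hthsq : th ^ 2 = X ^ 2 * (a + d) := by
    rw [hth, mul_pow, hs, hw]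
    linear_combination (X ^ 3 * w * (C k * C k⁻¹ + 1)) * hkk
  have hC4 : C (1 / 4 : ℚ) * 4 = (1 : R) := by
    have : (4 : R) = C 4 := by rw [map_ofNat]
    rw [this, ← map_mul]; norm_num
  have hC2 : C (1 / 2 : ℚ) * 2 = (1 : R) := by
    have : (2 : R) = C 2 := by rw [map_ofNat]
    rw [this, ← map_mul]; norm_num
  obtain ⟨r, hr, ⟨g', hg'⟩⟩ := exists_sqrt (1 + X * (C (1 / 4 : ℚ) * X * C k ^ 2 * s ^ 2)) ⟨_, rfl⟩
  have hr4 : (2 * th * r) ^ 2 = (2 + th ^ 2) ^ 2 - 4 := by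
    rw [mul_pow, hr, hth]
    linear_combination (X ^ 4 * C k ^ 4 * s ^ 4) * hC4
  refine ⟨th, 1 + C (1 / 2 : ℚ) * th ^ 2 + th * r, 1 + C (1 / 2 : ℚ) * th ^ 2 - th * r,
    ⟨g, by rw [hth, hg]⟩, ?_, ?_, ?_, ?_⟩
  · rw [hthsq, ha, hd]; ring
  · have h5 : (1 + C (1 / 2 : ℚ) * th ^ 2 + th * r) * (1 + C (1 / 2 : ℚ) * th ^ 2 - th * r) * 4
      = 4 := by
      linear_combination (th ^ 2 * 4 + th ^ 4 * (C (1 / 2 : ℚ) * 2 + 1)) * hC2 - hr4
    have h6 : (4 : R) ≠ 0 := by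
      intro h; rw [h, mul_zero] at hC4; exact zero_ne_one hC4
    have h7 : ((1 + C (1 / 2 : ℚ) * th ^ 2 + th * r) * (1 + C (1 / 2 : ℚ) * th ^ 2 - th * r)) * 4
      = 1 * 4 := by rw [h5]; ring
    exact mul_right_cancel₀ h6 h7
  · have : T 0 0 + T 1 1 = 2 + th ^ 2 := by rw [hthsq, ha, hd]; ring
    rw [this]
    linear_combination th ^ 2 * hC2
  · refine ⟨C (1 / 2 : ℚ) * C k ^ 2 * s ^ 2 + C k * (g + g' + X * g * g'), ?_⟩
    rw [hth, hg, hg']
    ring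

end CongCL
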