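import Mathlib

/-!
# Block CL: facts on free groups (commuting elements, a commutator is not a proper power)
-/

namespace CongCL

/-- Commuting elements of a free group are powers of a common element. -/
theorem commute_zpowers {ι : Type} (x y : FreeGroup ι) (h : x * y = y * x) :
    ∃ v : FreeGroup ι, x ∈ Subgroup.zpowers v ∧ y ∈ Subgroup.zpowers v := by
  classical
  set H : Subgroup (FreeGroup ι) := Subgroup.closure {x, y} with hH
  have hxH : x ∈ H := Subgroup.subset_closure (by simp)
  have hyH : y ∈ H := Subgroup.subset_closure (by simp)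
  have hcomm : ∀ a b : H, a * b = b * a := by
    have h1 : ∀ a ∈ ({x, y} : Set (FreeGroup ι)), ∀ b ∈ ({x, y} : Set (FreeGroup ι)),
        a * b = b * a := by
      rintro a (rfl | rfl) b (rfl | rfl)
      · rfl
      · exact h
      · exact h.symm
      · rfl
    letI := Subgroup.closureCommGroupOfComm h1
    intro a b
    exact mul_comm a b
  haveI : IsFreeGroup H := subgroupIsFreeOfIsFree H
  let e : H ≃* FreeGroup (IsFreeGroup.Generators H) := IsFreeGroup.toFreeGroup H
  have hcomm' : ∀ a b : FreeGroup (IsFreeGroup.Generators H), a * b = b * a := by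
    intro a b
    apply e.symm.injective
    rw [map_mul, map_mul, hcomm]
  have hsub : Subsingleton (IsFreeGroup.Generators H) := by
    refine ⟨fun a b => ?_⟩
    by_contra hab
    let f : FreeGroup (IsFreeGroup.Generators H) →* Equiv.Perm (Fin 3) :=
      FreeGroup.lift fun i => if i = a then Equiv.swap 0 1 else Equiv.swap 1 2
    have h1 := congrArg f (hcomm' (FreeGroup.of a) (FreeGroup.of b))
    rw [map_mul, map_mul] at h1
    have ha : f (FreeGroup.of a) = Equiv.swap 0 1 := by simp [f]
    have hb : f (FreeGroup.of b) = Equiv.swap 1 2 := by simp [f, Ne.symm hab]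
    rw [ha, hb] at h1
    exact absurd h1 (by decide)
  rcases isEmpty_or_nonempty (IsFreeGroup.Generators H) with he | ⟨⟨i⟩⟩
  · have h1 : ∀ a : H, a = 1 := by
      intro a
      apply e.injective
      exact Subsingleton.elim _ _
    refine ⟨1, ?_, ?_⟩
    · have := congrArg Subtype.val (h1 ⟨x, hxH⟩)
      simp only [Subgroup.coe_one] at this
      rw [this]; exact one_mem _
    · have := congrArg Subtype.val (h1 ⟨y, hyH⟩)
      simp only [Subgroup.coe_one] at this
      rw [this]; exact one_mem _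
  · have hcl : ∀ g : FreeGroup (IsFreeGroup.Generators H),
        g ∈ Subgroup.zpowers (FreeGroup.of i) := by
      intro g
      have h1 : g ∈ Subgroup.closure (Set.range (FreeGroup.of (α := IsFreeGroup.Generators H))) := by
        rw [FreeGroup.closure_range_of]; trivial
      refine (Subgroup.closure_le _).mpr ?_ h1
      rintro _ ⟨j, rfl⟩
      rw [Subsingleton.elim j i]
      exact Subgroup.mem_zpowers _
    refine ⟨(e.symm (FreeGroup.of i) : H), ?_, ?_⟩
    · obtain ⟨n, hn⟩ := hcl (e ⟨x, hxH⟩)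
      refine ⟨n, ?_⟩
      simp only at hn ⊢
      rw [← Subgroup.coe_zpow, ← map_zpow, hn, MulEquiv.symm_apply_apply]
    · obtain ⟨n, hn⟩ := hcl (e ⟨y, hyH⟩)
      refine ⟨n, ?_⟩
      simp only at hn ⊢
      rw [← Subgroup.coe_zpow, ← map_zpow, hn, MulEquiv.symm_apply_apply]

/-- Commuting elements have a common power. -/
theorem common_power {ι : Type} (x y : FreeGroup ι) (h : x * y = y * x) :
    ∃ i j : ℤ, (i ≠ 0 ∨ j ≠ 0) ∧ x ^ i = y ^ j := by
  obtain ⟨v, ⟨m, hm⟩, ⟨n, hn⟩⟩ := commute_zpowers x y h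
  simp only at hm hn
  by_cases h0 : m = 0 ∧ n = 0
  · refine ⟨1, 0, by simp, ?_⟩
    rw [← hm, h0.1]; simp
  · refine ⟨n, m, by omega, ?_⟩
    rw [← hm, ← hn, ← zpow_mul, ← zpow_mul, mul_comm]

/-- The integer Heisenberg group. -/
@[ext] structure Heis where
  a : ℤ
  b : ℤ
  c : ℤ

namespace Heis

instance : Mul Heis := ⟨fun x y => ⟨x.a + y.a, x.b + y.b, x.c + y.c + x.a * y.b⟩⟩
instance : One Heis := ⟨⟨0, 0, 0⟩⟩
instance : Inv Heis := ⟨fun x => ⟨-x.a, -x.b, -x.c + x.a * x.b⟩⟩

@[simp] lemma mul_a (x y : Heis) : (x * y).a = x.a + y.a := rfl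
@[simp] lemma mul_b (x y : Heis) : (x * y).b = x.b + y.b := rfl
@[simp] lemma mul_c (x y : Heis) : (x * y).c = x.c + y.c + x.a * y.b := rfl
@[simp] lemma one_a : (1 : Heis).a = 0 := rfl
@[simp] lemma one_b : (1 : Heis).b = 0 := rfl
@[simp] lemma one_c : (1 : Heis).c = 0 := rfl
@[simp] lemma inv_a (x : Heis) : (x⁻¹).a = -x.a := rfl
@[simp] lemma inv_b (x : Heis) : (x⁻¹).b = -x.b := rfl
@[simp] lemma inv_c (x : Heis) : (x⁻¹).c = -x.c + x.a * x.b := rfl

instance : Group Heis := Group.ofLeftAxioms
  (by intro x y z; ext <;> simp <;> ring)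
  (by intro x; ext <;> simp)
  (by intro x; ext <;> simp)

/-- first coordinate -/
def pa : Heis →* Multiplicative ℤ :=
  { toFun := fun x => Multiplicative.ofAdd x.a, map_one' := rfl, map_mul' := fun _ _ => rfl }
/-- second coordinate -/
def pb : Heis →* Multiplicative ℤ :=
  { toFun := fun x => Multiplicative.ofAdd x.b, map_one' := rfl, map_mul' := fun _ _ => rfl }
/-- centre -/
def ct : Multiplicative ℤ →* Heis :=
  { toFun := fun z => ⟨0, 0, z.toAdd⟩, map_one' := rfl, map_mul' := fun x y => by
      ext <;> simp }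

lemma zpow_a (v : Heis) (n : ℤ) : (v ^ n).a = n * v.a := by
  have h := map_zpow pa v n
  have h1 := congrArg Multiplicative.toAdd h
  simpa [pa] using h1

lemma zpow_b (v : Heis) (n : ℤ) : (v ^ n).b = n * v.b := by
  have h := map_zpow pb v n
  have h1 := congrArg Multiplicative.toAdd h
  simpa [pb] using h1

lemma not_power (v : Heis) (n : ℤ) (h : v ^ n = ⟨0, 0, 1⟩) : n = 1 ∨ n = -1 := by
  have hn : n ≠ 0 := by
    rintro rfl
    have := congrArg Heis.c h
    simp at this
  have ha : v.a = 0 := by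
    have := zpow_a v n
    rw [h] at this
    simpa [hn] using this.symm
  have hb : v.b = 0 := by
    have := zpow_b v n
    rw [h] at this
    simpa [hn] using this.symm
  have hv : v = ct (Multiplicative.ofAdd v.c) := by
    ext
    · exact ha
    · exact hb
    · rfl
  rw [hv, ← map_zpow] at h
  have := congrArg Heis.c h
  simp only [ct, MonoidHom.coe_mk, OneHom.coe_mk, toAdd_zpow, toAdd_ofAdd, smul_eq_mul] at this
  rcases Int.eq_one_or_neg_one_of_mul_eq_one this with h | h
  · exact Or.inl h
  · exact Or.inr h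

end Heis

/-- The commutator of the generators. -/
def cA : FreeGroup (Fin 2) :=
  FreeGroup.of 0 * FreeGroup.of 1 * (FreeGroup.of 0)⁻¹ * (FreeGroup.of 1)⁻¹

/-- The commutator of the two generators is not a proper power. -/
theorem cA_not_power (v : FreeGroup (Fin 2)) (n : ℤ) (h : v ^ n = cA) : n = 1 ∨ n = -1 := by
  let f : FreeGroup (Fin 2) →* Heis := FreeGroup.lift ![⟨1, 0, 0⟩, ⟨0, 1, 0⟩]
  have h1 := congrArg f h
  rw [map_zpow] at h1
  apply Heis.not_power (f v) n
  rw [h1]
  simp only [cA, map_mul, map_inv, f, FreeGroup.lift_apply_of]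
  ext <;> simp

/-- If `c` is not a proper power, its centraliser is generated by `c`. -/
theorem mem_zpowers_of_commute {ι : Type} (c x : FreeGroup ι)
    (hc : ∀ (v : FreeGroup ι) (n : ℤ), v ^ n = c → n = 1 ∨ n = -1) (h : x * c = c * x) : x ∈ Subgroup.zpowers c := by
  obtain ⟨v, hx, ⟨n, hn⟩⟩ := commute_zpowers x c h
  simp only at hn
  rcases hc v n hn with rfl | rfl
  · rw [zpow_one] at hn; rw [← hn]; exact hx
  · rw [zpow_neg_one] at hn
    rw [← hn, Subgroup.zpowers_inv]; exact hx

end CongCL
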