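import Pool.Agent.Lvl.CCDef
import Pool.Agent.CongCL.Diag

/-!
# Block CL: traces of representations close to unipotent ones
-/

namespace CongCL

open Matrix Pool.Agent.Lvl MonoidAlgebra

/-- matrices divisible by `X ^ n` -/
def divM (n : ℕ) : Submodule ℚ (Matrix (Fin 2) (Fin 2) R) where
  carrier := {M | ∀ i j, (PowerSeries.X : R) ^ n ∣ M i j}
  add_mem' := by
    intro M N hM hN i j
    exact dvd_add (hM i j) (hN i j)
  zero_mem' := by
    intro i j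
    exact dvd_zero _
  smul_mem' := by
    intro c M hM i j
    rw [Matrix.smul_apply, Algebra.smul_def]
    exact Dvd.dvd.mul_left (hM i j) _

lemma mul_mem_divM {n : ℕ} (M N : Matrix (Fin 2) (Fin 2) R) (hN : N ∈ divM n) :
    M * N ∈ divM n := by
  intro i j
  rw [Matrix.mul_apply]
  exact Finset.dvd_sum fun k _ => Dvd.dvd.mul_left (hN k j) _

lemma mul_divM {m n : ℕ} {M N : Matrix (Fin 2) (Fin 2) R} (hM : M ∈ divM m) (hN : N ∈ divM n) :
    M * N ∈ divM (m + n) := by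
  intro i j
  rw [Matrix.mul_apply, pow_add]
  exact Finset.dvd_sum fun k _ => mul_dvd_mul (hM i k) (hN k j)

/-- matrices with strictly upper triangular constant term -/
def nilM : Submodule ℚ (Matrix (Fin 2) (Fin 2) R) where
  carrier := {M | (PowerSeries.X : R) ∣ M 0 0 ∧ (PowerSeries.X : R) ∣ M 1 1 ∧
    (PowerSeries.X : R) ∣ M 1 0}
  add_mem' := by
    rintro M N ⟨h1, h2, h3⟩ ⟨h4, h5, h6⟩
    exact ⟨dvd_add h1 h4, dvd_add h2 h5, dvd_add h3 h6⟩
  zero_mem' := ⟨dvd_zero _, dvd_zero _, dvd_zero _⟩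
  smul_mem' := by
    rintro c M ⟨h1, h2, h3⟩
    refine ⟨?_, ?_, ?_⟩ <;> rw [Matrix.smul_apply, Algebra.smul_def]
    · exact Dvd.dvd.mul_left h1 _
    · exact Dvd.dvd.mul_left h2 _
    · exact Dvd.dvd.mul_left h3 _

lemma nil_mul_nil {M N : Matrix (Fin 2) (Fin 2) R} (hM : M ∈ nilM) (hN : N ∈ nilM) :
    M * N ∈ divM 1 := by
  obtain ⟨h1, h2, h3⟩ := hM
  obtain ⟨h4, h5, h6⟩ := hN
  intro i j
  rw [Matrix.mul_apply, Fin.sum_univ_two, pow_one]
  fin_cases i <;> fin_cases j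
  · exact dvd_add (Dvd.dvd.mul_right h1 _) (Dvd.dvd.mul_left h6 _)
  · exact dvd_add (Dvd.dvd.mul_right h1 _) (Dvd.dvd.mul_left h5 _)
  · exact dvd_add (Dvd.dvd.mul_right h3 _) (Dvd.dvd.mul_left h6 _)
  · exact dvd_add (Dvd.dvd.mul_right h3 _) (Dvd.dvd.mul_left h5 _)

variable {H : Type} [Group H] (ρ : H →* Matrix (Fin 2) (Fin 2) R)

/-- the linear extension -/
noncomputable def LL : MonoidAlgebra ℚ H →ₐ[ℚ] Matrix (Fin 2) (Fin 2) R :=
  MonoidAlgebra.lift ℚ (Matrix (Fin 2) (Fin 2) R) H ρ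

lemma LL_single (h : H) : LL ρ (single h 1) = ρ h := by
  simp [LL, MonoidAlgebra.lift_single]

lemma LL_aug (hρ : ∀ h, UP (ρ h)) {z : MonoidAlgebra ℚ H} (hz : z ∈ aug ℚ H) :
    LL ρ z ∈ nilM := by
  have h : aug ℚ H ≤ nilM.comap (LL ρ).toLinearMap := by
    rw [aug, Submodule.span_le]
    rintro _ ⟨g, rfl⟩
    show LL ρ (single g 1 - 1) ∈ nilM
    rw [map_sub, LL_single, map_one]
    obtain ⟨⟨a, ha⟩, ⟨b, hb⟩, ⟨c, hc⟩⟩ := hρ g
    refine ⟨⟨a, ?_⟩, ⟨b, ?_⟩, ⟨c, ?_⟩⟩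
    · rw [Matrix.sub_apply, ha]; simp
    · rw [Matrix.sub_apply, hb]; simp
    · rw [Matrix.sub_apply, hc]; simp
  exact h hz

lemma LL_aug2 (hρ : ∀ h, UP (ρ h)) {z : MonoidAlgebra ℚ H} (hz : z ∈ aug ℚ H * aug ℚ H) :
    LL ρ z ∈ divM 1 := by
  have h : aug ℚ H * aug ℚ H ≤ (divM 1).comap (LL ρ).toLinearMap := by
    rw [Submodule.mul_le]
    intro a ha b hb
    show LL ρ (a * b) ∈ divM 1
    rw [map_mul]
    exact nil_mul_nil (LL_aug ρ hρ ha) (LL_aug ρ hρ hb)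
  exact h hz

lemma LL_pow (hρ : ∀ h, UP (ρ h)) (n : ℕ) {z : MonoidAlgebra ℚ H} (hz : z ∈ aug ℚ H ^ (2 * n)) :
    LL ρ z ∈ divM n := by
  induction n generalizing z with
  | zero =>
    intro i j
    rw [pow_zero]; exact one_dvd _
  | succ n ih =>
    have h : aug ℚ H ^ (2 * (n + 1)) ≤ (divM (n + 1)).comap (LL ρ).toLinearMap := by
      have e : 2 * (n + 1) = 2 * n + 2 := by ring
      rw [e, pow_add, Submodule.mul_le]
      intro a ha b hb
      show LL ρ (a * b) ∈ divM (n + 1)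
      rw [map_mul]
      rw [pow_two] at hb
      exact mul_divM (ih ha) (LL_aug2 ρ hρ hb)
    exact h hz

lemma LL_Fil (hρ : ∀ h, UP (ρ h)) (n : ℕ) {z : MonoidAlgebra ℚ H} (hz : z ∈ Fil ℚ H (2 * n)) :
    LL ρ z ∈ divM n := by
  have h : Fil ℚ H (2 * n) ≤ (divM n).comap (LL ρ).toLinearMap := by
    rw [Fil, Submodule.mul_le]
    intro a _ b hb
    show LL ρ (a * b) ∈ divM n
    rw [map_mul]
    exact mul_mem_divM _ _ (LL_pow ρ hρ n hb)
  exact h hz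

lemma LL_com {z : MonoidAlgebra ℚ H} (hz : z ∈ comQ H) : trace (LL ρ z) = 0 := by
  have h : comQ H ≤ (LinearMap.ker ((Matrix.traceLinearMap (Fin 2) ℚ R).comp
      (LL ρ).toLinearMap)) := by
    rw [comQ, Submodule.span_le]
    rintro _ ⟨x, y, rfl⟩
    show trace (LL ρ (x * y - y * x)) = 0
    rw [map_sub, map_mul, map_mul, trace_sub, Matrix.trace_mul_comm, sub_self]
  exact h hz

lemma eq_zero_of_forall_dvd (f : R) (h : ∀ n, (PowerSeries.X : R) ^ n ∣ f) : f = 0 := by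
  ext n
  have := (PowerSeries.X_pow_dvd_iff.mp (h (n + 1))) n (Nat.lt_succ_self n)
  simpa using this

theorem trace_eq_of_CC (hρ : ∀ h, UP (ρ h)) {h h' : H} (hc : CC h h') :
    trace (ρ h) = trace (ρ h') := by
  rw [← sub_eq_zero]
  apply eq_zero_of_forall_dvd
  intro n
  obtain ⟨a, ha, b, hb, hab⟩ := Submodule.mem_sup.mp (hc (2 * n))
  have h1 : trace (ρ h) - trace (ρ h') = trace (LL ρ a) := by
    rw [← LL_single ρ h, ← LL_single ρ h', ← trace_sub, ← map_sub, ← hab, map_add, trace_add,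
      LL_com ρ hb, add_zero]
  rw [h1, Matrix.trace_fin_two]
  have h2 := LL_Fil ρ hρ n ha
  exact dvd_add (h2 0 0) (h2 1 1)

theorem eq_one_of_Fil (hρ : ∀ h, UP (ρ h)) {h : H}
    (hc : ∀ n, single h (1 : ℚ) - 1 ∈ Fil ℚ H n) : ρ h = 1 := by
  rw [← sub_eq_zero]
  ext1 i j
  apply eq_zero_of_forall_dvd
  intro n
  have h2 := LL_Fil ρ hρ n (hc (2 * n))
  rw [map_sub, map_one, LL_single] at h2
  exact h2 i j

end CongCL
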