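import Pool.Agent.CongCL.Datum
import Pool.Agent.CongCL.TraceCC
import Pool.Agent.Lvl.CycF
import Pool.Agent.Lvl.Gross

/-!
# Block CL: pointwise trace-equivalent endomorphisms of surface groups are inner
-/

namespace CongCL

open Matrix Pool.Agent.Lvl MonoidAlgebra

lemma CC_map {H H' : Type} [Group H] [Group H'] (r : H →* H') {h h' : H} (hc : CC h h') :
    CC (r h) (r h') := by
  let F : MonoidAlgebra ℚ H →ₐ[ℚ] MonoidAlgebra ℚ H' := MonoidAlgebra.mapDomainAlgHom ℚ ℚ r
  have hF : ∀ g : H, F (single g 1) = single (r g) 1 := by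
    intro g
    simp [F]
  intro n
  have haug : (aug ℚ H).map F.toLinearMap ≤ aug ℚ H' := by
    rw [aug, Submodule.map_span_le]
    rintro _ ⟨g, rfl⟩
    show F (single g 1 - 1) ∈ _
    rw [map_sub, hF, map_one]
    exact Submodule.subset_span ⟨r g, rfl⟩
  have hFil : (Fil ℚ H n).map F.toLinearMap ≤ Fil ℚ H' n := by
    rw [Fil, Fil, Submodule.map_mul, Submodule.map_pow]
    exact mul_le_mul' le_top (pow_le_pow_left' haug n)
  have hcom : (comQ H).map F.toLinearMap ≤ comQ H' := by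
    rw [comQ, Submodule.map_span_le]
    rintro _ ⟨x, y, rfl⟩
    show F (x * y - y * x) ∈ _
    rw [map_sub, map_mul, map_mul]
    exact Submodule.subset_span ⟨F x, F y, rfl⟩
  have h1 : F (single h 1 - single h' 1) ∈ (Fil ℚ H n ⊔ comQ H).map F.toLinearMap :=
    Submodule.mem_map_of_mem (hc n)
  rw [map_sub, hF, hF, Submodule.map_sup] at h1
  exact sup_le_sup hFil hcom h1

/-- The representation which detects the class of the first generator. -/
theorem exists_chi (k : ℕ) : ∃ χ : SurfaceGroup (k + 2) →* Matrix (Fin 2) (Fin 2) R,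
    (∀ h, UP (χ h)) ∧ trace (χ (iA (FreeGroup.of 0))) = 2 + PowerSeries.X ∧
      (∀ y, χ (iB y) = 1) ∧ χ (iA cA) = 1 := by
  have hu : (1 + PowerSeries.X : R) * (1 + PowerSeries.X : R)⁻¹ = 1 :=
    PowerSeries.mul_inv_cancel _ (by simp)
  let U : Rˣ := ⟨1 + PowerSeries.X, (1 + PowerSeries.X)⁻¹, hu, by rw [mul_comm]; exact hu⟩
  have hcA : FreeGroup.lift ![U, 1] cA = 1 := by
    simp [cA]
  obtain ⟨f, hf1, hf2⟩ := exists_glue (k := k + 1) (FreeGroup.lift ![U, 1]) 1 (by
    rw [hcA]; rfl)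
  have hcc : ∀ h, PowerSeries.constantCoeff (f h : R) = 1 := by
    intro h
    let c : Rˣ →* ℚˣ := Units.map (PowerSeries.constantCoeff (R := ℚ)).toMonoidHom
    have hS : (c.comp f).ker = ⊤ := by
      apply gen_top
      · rintro _ ⟨x, rfl⟩
        rw [MonoidHom.mem_ker, MonoidHom.comp_apply, hf1]
        have : c.comp (FreeGroup.lift ![U, 1]) = 1 := by
          ext i
          fin_cases i
          · simp [c, U]
          · simp [c]
        exact congrArg (fun f => f x) this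
      · rintro _ ⟨y, rfl⟩
        rw [MonoidHom.mem_ker, MonoidHom.comp_apply, hf2]
        simp
    have h1 : h ∈ (c.comp f).ker := hS ▸ Subgroup.mem_top h
    exact congrArg Units.val h1
  let χ : SurfaceGroup (k + 2) →* Matrix (Fin 2) (Fin 2) R :=
    { toFun := fun h => !![(f h : R), 0; 0, 1]
      map_one' := by rw [map_one, Units.val_one, Matrix.one_fin_two]
      map_mul' := by
        intro x y
        rw [map_mul, Units.val_mul, Matrix.mul_fin_two]
        apply mk_eq <;> ring }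
  refine ⟨χ, ?_, ?_, ?_, ?_⟩
  · intro h
    have h1 : (PowerSeries.X : R) ∣ (f h : R) - 1 := by
      rw [PowerSeries.X_dvd_iff, map_sub, hcc, map_one, sub_self]
    obtain ⟨a, ha⟩ := h1
    refine ⟨⟨a, ?_⟩, ⟨0, ?_⟩, ⟨0, ?_⟩⟩
    · show (f h : R) = _
      linear_combination ha
    · show (1 : R) = _
      simp
    · show (0 : R) = _
      simp
  · show trace !![(f (iA (FreeGroup.of 0)) : R), 0; 0, 1] = _
    rw [hf1, Matrix.trace_fin_two_of, FreeGroup.lift_apply_of]
    show (1 + PowerSeries.X : R) + 1 = _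
    ring
  · intro y
    show !![(f (iB y) : R), 0; 0, 1] = _
    rw [hf2, Matrix.one_fin_two]
    rfl
  · show !![(f (iA cA) : R), 0; 0, 1] = _
    rw [hf1, hcA, Matrix.one_fin_two]
    rfl

lemma two_ne : (2 : R) ≠ 2 + PowerSeries.X := by
  intro h
  have h1 : (PowerSeries.X : R) = 0 := by linear_combination -h
  exact PowerSeries.X_ne_zero h1

lemma trace_conj {H : Type} [Group H] (ρ : H →* Matrix (Fin 2) (Fin 2) R) (g h : H) :
    trace (ρ (g * h * g⁻¹)) = trace (ρ h) := by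
  rw [map_mul, Matrix.trace_mul_comm, ← map_mul, inv_mul_cancel_left]

/-- THEOREM CL. -/
theorem inner_of_CC {g : ℕ} (hg : 2 ≤ g) (φ : SurfaceGroup g →* SurfaceGroup g)
    (hφ : ∀ h, CC (φ h) h) : ∃ w, ∀ x, φ x = w * x * w⁻¹ := by
  obtain ⟨k, rfl⟩ : ∃ k, g = k + 2 := ⟨g - 2, by omega⟩
  obtain ⟨D, hiA, hiB, hcA, hcB, hαi, hspan, hU⟩ := exists_bend k
  obtain ⟨χ, hχU, hχa, hχB, hχc⟩ := exists_chi k
  obtain ⟨r, hr⟩ := exists_retraction (k := k)
  have htr : ∀ s h, trace (D.ρ s (φ h)) = trace (D.ρ s h) := fun s h =>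
    trace_eq_of_CC (D.ρ s) (hU s) (hφ h)
  have htχ : ∀ h, trace (χ (φ h)) = trace (χ h) := fun h => trace_eq_of_CC χ hχU (hφ h)
  have htr1 : trace (1 : Matrix (Fin 2) (Fin 2) R) = 2 := by simp
  -- the image of the first generator
  obtain ⟨p, c, hp⟩ : ∃ p : FreeGroup (Fin 2), ∃ c, c * φ (iA (FreeGroup.of 0)) * c⁻¹ = iA p := by
    rcases D.conj_of_const (φ (iA (FreeGroup.of 0))) (trace (D.α (FreeGroup.of 0))) (by
      intro s; rw [htr, ← hiA, D.hρA]) with ⟨p, hp⟩ | ⟨b, hb⟩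
    · obtain ⟨c, hc⟩ := isConj_iff.mp hp
      exact ⟨p, c, by rw [← hiA]; rw [← hiA] at hc; exact hc⟩
    · exfalso
      obtain ⟨c, hc⟩ := isConj_iff.mp hb
      have h1 := trace_conj χ c (φ (iA (FreeGroup.of 0)))
      rw [hc, hiB, hχB, htr1, htχ, hχa] at h1
      exact two_ne h1
  have hpw : ∀ w : FreeGroup (Fin 2), w⁻¹ * p * w ∉ Subgroup.zpowers D.cA := by
    rintro w ⟨n, hn⟩
    simp only at hn
    have h1 := trace_conj χ (iA w⁻¹) (iA p)
    rw [← map_mul, ← map_inv, inv_inv, ← map_mul, ← hn, hcA, map_zpow] at h1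
    have h2 : χ (iA cA ^ n) = 1 := by
      have h3 : χ.toHomUnits (iA cA) = 1 := by
        apply Units.ext
        rw [MonoidHom.coe_toHomUnits, hχc, Units.val_one]
      have h4 : χ.toHomUnits (iA cA ^ n) = 1 := by rw [map_zpow, h3, _root_.one_zpow]
      have h5 := congrArg Units.val h4
      rwa [MonoidHom.coe_toHomUnits, Units.val_one] at h5
    rw [h2, htr1, ← hp, trace_conj, htχ, hχa] at h1
    exact two_ne h1
  -- normalise
  let φ1 : SurfaceGroup (k + 2) →* SurfaceGroup (k + 2) := (MulAut.conj c).toMonoidHom.comp φ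
  have hφ1 : ∀ x, φ1 x = c * φ x * c⁻¹ := fun x => rfl
  have htr' : ∀ s h, trace (D.ρ s (φ1 h)) = trace (D.ρ s h) := by
    intro s h
    rw [hφ1, trace_conj, htr]
  have hmap : ∀ x, ∃ x', φ1 (iA x) = iA x' := by
    intro x
    have := D.map_factor φ1 htr' (FreeGroup.of 0) p hpw (by rw [hiA, hφ1, hp]) x
    rwa [hiA] at this
  let f : FreeGroup (Fin 2) →* FreeGroup (Fin 2) := (r.comp φ1).comp iA
  have hf : ∀ x, φ1 (iA x) = iA (f x) := by
    intro x
    obtain ⟨x', hx'⟩ := hmap x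
    have : f x = x' := by
      show r (φ1 (iA x)) = x'
      rw [hx', hr]
    rw [this, hx']
  have hfc : ∀ x, IsConj x (f x) := by
    intro x
    have h1 : CC (φ1 (iA x)) (iA x) := (hφ (iA x)).conj c
    have h2 := CC_map r h1
    rw [hr] at h2
    exact (isConj_of_CC h2).symm
  obtain ⟨w, hw⟩ := grossman f hfc
  let φ2 : SurfaceGroup (k + 2) →* SurfaceGroup (k + 2) :=
    (MulAut.conj (iA w)⁻¹).toMonoidHom.comp φ1
  have hφ2 : ∀ x, φ2 x = (iA w)⁻¹ * φ1 x * (iA w) := by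
    intro x
    show (iA w)⁻¹ * φ1 x * ((iA w)⁻¹)⁻¹ = _
    rw [inv_inv]
  have htr2 : ∀ s h, trace (D.ρ s (φ2 h)) = trace (D.ρ s h) := by
    intro s h
    show trace (D.ρ s ((iA w)⁻¹ * φ1 h * ((iA w)⁻¹)⁻¹)) = _
    rw [trace_conj, htr']
  have hfix : ∀ x, φ2 (D.iA x) = D.iA x := by
    intro x
    rw [hiA, hφ2, hf, hw, map_mul, map_mul, map_inv]
    group
  have ha : FreeGroup.of 0 ∉ Subgroup.zpowers D.cA := by
    rintro ⟨n, hn⟩
    simp only at hn
    have h2 : χ (iA cA ^ n) = 1 := by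
      have h3 : χ.toHomUnits (iA cA) = 1 := by
        apply Units.ext
        rw [MonoidHom.coe_toHomUnits, hχc, Units.val_one]
      have h4 : χ.toHomUnits (iA cA ^ n) = 1 := by rw [map_zpow, h3, _root_.one_zpow]
      have h5 := congrArg Units.val h4
      rwa [MonoidHom.coe_toHomUnits, Units.val_one] at h5
    rw [← hn, hcA, map_zpow, h2, htr1] at hχa
    exact two_ne hχa
  have hid := D.eq_id hαi _ ha hspan φ2 htr2 hfix
  refine ⟨c⁻¹ * iA w, fun x => ?_⟩
  have h1 := hid x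
  rw [hφ2, hφ1] at h1
  conv_rhs => rw [← h1]
  group

/-- (RU) The powers of the augmentation ideal separate the elements of a surface group. -/
theorem surf_resN {g : ℕ} (hg : 2 ≤ g) (h : SurfaceGroup g) (hh : h ≠ 1) :
    ∃ n, single h (1 : ℚ) - 1 ∉ Fil ℚ (SurfaceGroup g) n := by
  by_contra hcon
  push Not at hcon
  obtain ⟨k, rfl⟩ : ∃ k, g = k + 2 := ⟨g - 2, by omega⟩
  obtain ⟨D, hiA, hiB, hcA, hcB, hαi, hspan, hU⟩ := exists_bend k
  obtain ⟨χ, hχU, hχa, hχB, hχc⟩ := exists_chi k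
  have htr1 : trace (1 : Matrix (Fin 2) (Fin 2) R) = 2 := by simp
  have ha : FreeGroup.of 0 ∉ Subgroup.zpowers D.cA := by
    rintro ⟨n, hn⟩
    simp only at hn
    have h2 : χ (iA cA ^ n) = 1 := by
      have h3 : χ.toHomUnits (iA cA) = 1 := by
        apply Units.ext
        rw [MonoidHom.coe_toHomUnits, hχc, Units.val_one]
      have h4 : χ.toHomUnits (iA cA ^ n) = 1 := by rw [map_zpow, h3, _root_.one_zpow]
      have h5 := congrArg Units.val h4
      rwa [MonoidHom.coe_toHomUnits, Units.val_one] at h5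
    rw [← hn, hcA, map_zpow, h2, htr1] at hχa
    exact two_ne hχa
  exact hh (D.eq_one_of_forall hαi _ ha h fun s => eq_one_of_Fil (D.ρ s) (hU s) hcon)

end CongCL
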