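import Mathlib

/-!
# Block CL: free groups of matrices over `ℚ[X]`, by ping-pong on leading terms
-/

namespace CongCL

open Matrix Polynomial

/-- Nonzero vectors. -/
abbrev V := {p : ℚ[X] × ℚ[X] // p ≠ 0}

/-- Matrices of determinant one. -/
abbrev G := Matrix.SpecialLinearGroup (Fin 2) ℚ[X]

lemma det_eq (g : G) : g 0 0 * g 1 1 - g 0 1 * g 1 0 = 1 := by
  have h := g.det_coe
  rw [Matrix.det_fin_two] at h
  exact h

lemma smul_aux (g : G) (v : V) :
    ((g 0 0 * v.1.1 + g 0 1 * v.1.2, g 1 0 * v.1.1 + g 1 1 * v.1.2) : ℚ[X] × ℚ[X]) ≠ 0 := by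
  intro h
  apply v.2
  have h1 : g 0 0 * v.1.1 + g 0 1 * v.1.2 = 0 := congrArg Prod.fst h
  have h2 : g 1 0 * v.1.1 + g 1 1 * v.1.2 = 0 := congrArg Prod.snd h
  have hd := det_eq g
  apply Prod.ext
  · change v.1.1 = 0
    linear_combination (-v.1.1) * hd + g 1 1 * h1 - g 0 1 * h2
  · change v.1.2 = 0
    linear_combination (-v.1.2) * hd + g 0 0 * h2 - g 1 0 * h1

noncomputable instance : MulAction G V where
  smul g v := ⟨(g 0 0 * v.1.1 + g 0 1 * v.1.2, g 1 0 * v.1.1 + g 1 1 * v.1.2), smul_aux g v⟩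
  one_smul v := by
    apply Subtype.ext
    apply Prod.ext
    · change (1 : G) 0 0 * v.1.1 + (1 : G) 0 1 * v.1.2 = v.1.1
      simp
    · change (1 : G) 1 0 * v.1.1 + (1 : G) 1 1 * v.1.2 = v.1.2
      simp
  mul_smul g h v := by
    apply Subtype.ext
    apply Prod.ext
    · change (g * h) 0 0 * v.1.1 + (g * h) 0 1 * v.1.2 =
        g 0 0 * (h 0 0 * v.1.1 + h 0 1 * v.1.2) + g 0 1 * (h 1 0 * v.1.1 + h 1 1 * v.1.2)
      simp [Matrix.mul_apply, Fin.sum_univ_two]
      ring
    · change (g * h) 1 0 * v.1.1 + (g * h) 1 1 * v.1.2 =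
        g 1 0 * (h 0 0 * v.1.1 + h 0 1 * v.1.2) + g 1 1 * (h 1 0 * v.1.1 + h 1 1 * v.1.2)
      simp [Matrix.mul_apply, Fin.sum_univ_two]
      ring

lemma smul_fst (g : G) (v : V) : (g • v).1.1 = g 0 0 * v.1.1 + g 0 1 * v.1.2 := rfl
lemma smul_snd (g : G) (v : V) : (g • v).1.2 = g 1 0 * v.1.1 + g 1 1 * v.1.2 := rfl

/-- The generator `u(p) l(qX)`. -/
noncomputable def gen (p q : ℚ) : G :=
  ⟨!![1 + C (p * q) * X, C p; C q * X, 1], by
    rw [Matrix.det_fin_two_of, map_mul]; ring⟩

lemma gen_smul (p q : ℚ) (v : V) : (gen p q • v).1.1 = v.1.1 + C p * (v.1.2 + C q * X * v.1.1) ∧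
    (gen p q • v).1.2 = v.1.2 + C q * X * v.1.1 := by
  constructor
  · rw [smul_fst]
    simp only [gen, Matrix.SpecialLinearGroup.coe_mk, Matrix.of_apply, Matrix.cons_val',
      Matrix.cons_val_zero, Matrix.cons_val_one, Matrix.cons_val_fin_one, map_mul]
    ring
  · rw [smul_snd]
    simp only [gen, Matrix.SpecialLinearGroup.coe_mk, Matrix.of_apply, Matrix.cons_val',
      Matrix.cons_val_zero, Matrix.cons_val_one, Matrix.cons_val_fin_one, map_mul]
    ring

lemma gen_inv_smul (p q : ℚ) (v : V) : ((gen p q)⁻¹ • v).1.1 = v.1.1 - C p * v.1.2 ∧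
    ((gen p q)⁻¹ • v).1.2 = v.1.2 - C q * X * (v.1.1 - C p * v.1.2) := by
  constructor
  · rw [smul_fst, Matrix.SpecialLinearGroup.coe_inv, Matrix.adjugate_fin_two]
    simp only [gen, Matrix.SpecialLinearGroup.coe_mk, Matrix.of_apply, Matrix.cons_val',
      Matrix.cons_val_zero, Matrix.cons_val_one, Matrix.cons_val_fin_one, map_mul]
    ring
  · rw [smul_snd, Matrix.SpecialLinearGroup.coe_inv, Matrix.adjugate_fin_two]
    simp only [gen, Matrix.SpecialLinearGroup.coe_mk, Matrix.of_apply, Matrix.cons_val',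
      Matrix.cons_val_zero, Matrix.cons_val_one, Matrix.cons_val_fin_one, map_mul]
    ring

/-- Attracting set. -/
def XX (p : ℚ) : Set V :=
  {v | v.1.1.degree = v.1.2.degree ∧ v.1.1.leadingCoeff = p * v.1.2.leadingCoeff}

/-- Repelling set. -/
def YY (q : ℚ) : Set V :=
  {v | v.1.2.degree = v.1.1.degree + 1 ∧ v.1.2.leadingCoeff = -q * v.1.1.leadingCoeff}

lemma gen_XX (p q : ℚ) (hp : p ≠ 0) (hq : q ≠ 0) (v : V) (hv : v ∉ YY q) :
    gen p q • v ∈ XX p := by
  obtain ⟨h1, h2⟩ := gen_smul p q v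
  set f := v.1.1 with hf
  set g := v.1.2 with hg
  have hlt : f.degree < (g + C q * X * f).degree := by
    by_cases hf0 : f = 0
    · have hg0 : g ≠ 0 := by
        intro hg0
        exact v.2 (Prod.ext hf0 hg0)
      rw [hf0, mul_zero, add_zero, degree_zero]
      exact bot_lt_iff_ne_bot.mpr (fun h => hg0 (degree_eq_bot.mp h))
    · have hA : (C q * X * f).degree = f.degree + 1 := by
        rw [degree_mul, degree_C_mul_X hq, add_comm]
      have hlt1 : f.degree < f.degree + 1 := by
        rw [degree_eq_natDegree hf0]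
        exact_mod_cast Nat.lt_succ_self _
      rcases lt_trichotomy g.degree (C q * X * f).degree with h | h | h
      · rw [degree_add_eq_right_of_degree_lt h, hA]; exact hlt1
      · by_cases hl : g.leadingCoeff + (C q * X * f).leadingCoeff = 0
        · exfalso
          apply hv
          refine ⟨h.trans hA, ?_⟩
          have : (C q * X * f).leadingCoeff = q * f.leadingCoeff := by
            rw [leadingCoeff_mul, leadingCoeff_mul, leadingCoeff_C, leadingCoeff_X, mul_one]
          rw [this] at hl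
          linear_combination hl
        · rw [degree_add_eq_of_leadingCoeff_add_ne_zero hl, h, max_self, hA]
          exact hlt1
      · rw [degree_add_eq_left_of_degree_lt h]
        exact hlt1.trans (hA ▸ h)
  have hC : (C p * (g + C q * X * f)).degree = (g + C q * X * f).degree := by
    rw [degree_mul, degree_C hp, zero_add]
  refine ⟨?_, ?_⟩
  · rw [h1, h2, degree_add_eq_right_of_degree_lt (by rw [hC]; exact hlt), hC]
  · rw [h1, h2, leadingCoeff_add_of_degree_lt (by rw [hC]; exact hlt), leadingCoeff_mul,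
      leadingCoeff_C]

lemma gen_YY (p q : ℚ) (hp : p ≠ 0) (hq : q ≠ 0) (v : V) (hv : v ∉ XX p) :
    (gen p q)⁻¹ • v ∈ YY q := by
  obtain ⟨h1, h2⟩ := gen_inv_smul p q v
  set f := v.1.1 with hf
  set g := v.1.2 with hg
  set f' := f - C p * g with hf'
  have hlt : g.degree ≤ f'.degree ∧ f' ≠ 0 := by
    by_cases hg0 : g = 0
    · have hf0 : f ≠ 0 := by
        intro hf0
        exact v.2 (Prod.ext hf0 hg0)
      rw [hf', hg0, mul_zero, sub_zero, degree_zero]
      exact ⟨bot_le, hf0⟩
    · have hA : (C (-p) * g).degree = g.degree := by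
        rw [degree_mul, degree_C (neg_ne_zero.mpr hp), zero_add]
      have hle : g.degree ≤ f'.degree := by
        have e : f' = f + C (-p) * g := by rw [hf', map_neg]; ring
        rw [e]
        rcases lt_trichotomy f.degree (C (-p) * g).degree with h | h | h
        · rw [degree_add_eq_right_of_degree_lt h, hA]
        · by_cases hl : f.leadingCoeff + (C (-p) * g).leadingCoeff = 0
          · exfalso
            apply hv
            refine ⟨h.trans hA, ?_⟩
            have : (C (-p) * g).leadingCoeff = -p * g.leadingCoeff := by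
              rw [leadingCoeff_mul, leadingCoeff_C]
            rw [this] at hl
            linear_combination hl
          · rw [degree_add_eq_of_leadingCoeff_add_ne_zero hl, h, max_self, hA]
        · rw [degree_add_eq_left_of_degree_lt h]
          exact (hA ▸ h).le
      refine ⟨hle, ?_⟩
      intro h0
      rw [h0, degree_zero, le_bot_iff, degree_eq_bot] at hle
      exact hg0 hle
  have hC : (C (-q) * X * f').degree = f'.degree + 1 := by
    rw [degree_mul, degree_C_mul_X (neg_ne_zero.mpr hq), add_comm]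
  have hlt1 : g.degree < (C (-q) * X * f').degree := by
    rw [hC]
    refine lt_of_le_of_lt hlt.1 ?_
    rw [degree_eq_natDegree hlt.2]
    exact_mod_cast Nat.lt_succ_self _
  have e : g - C q * X * f' = g + C (-q) * X * f' := by rw [map_neg]; ring
  refine ⟨?_, ?_⟩
  · rw [h1, h2, e, degree_add_eq_right_of_degree_lt hlt1, hC]
  · rw [h1, h2, e, leadingCoeff_add_of_degree_lt hlt1, leadingCoeff_mul, leadingCoeff_mul,
      leadingCoeff_C, leadingCoeff_X, mul_one]

theorem free_inj {ι : Type} [Nontrivial ι] (p q : ι → ℚ) (hp : Function.Injective p)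
    (hq : Function.Injective q) (hp0 : ∀ i, p i ≠ 0) (hq0 : ∀ i, q i ≠ 0) :
    Function.Injective (FreeGroup.lift fun i => gen (p i) (q i)) := by
  refine FreeGroup.injective_lift_of_ping_pong (fun i => gen (p i) (q i)) (fun i => XX (p i))
    (fun i => YY (q i)) ?_ ?_ ?_ ?_ ?_ ?_
  · intro i
    refine ⟨⟨(C (p i), 1), by simp⟩, ?_⟩
    simp [XX, hp0 i]
  · intro i j hij
    rw [Function.onFun, Set.disjoint_left]
    rintro ⟨⟨f, g⟩, hfg⟩ ⟨h1, h2⟩ ⟨h3, h4⟩
    simp only at h1 h2 h3 h4
    apply hij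
    have hg : g ≠ 0 := by
      rintro rfl
      apply hfg
      rw [degree_zero, degree_eq_bot] at h1
      rw [h1]; rfl
    apply hp
    rw [h2] at h4
    exact mul_right_cancel₀ (leadingCoeff_ne_zero.mpr hg) h4
  · intro i j hij
    rw [Function.onFun, Set.disjoint_left]
    rintro ⟨⟨f, g⟩, hfg⟩ ⟨h1, h2⟩ ⟨h3, h4⟩
    simp only at h1 h2 h3 h4
    apply hij
    have hf : f ≠ 0 := by
      rintro rfl
      apply hfg
      rw [degree_zero, WithBot.bot_add, degree_eq_bot] at h1
      rw [h1]; rfl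
    apply hq
    rw [h2] at h4
    exact neg_injective (mul_right_cancel₀ (leadingCoeff_ne_zero.mpr hf) h4)
  · intro i j
    rw [Set.disjoint_left]
    rintro ⟨⟨f, g⟩, hfg⟩ ⟨h1, h2⟩ ⟨h3, h4⟩
    simp only at h1 h2 h3 h4
    have hf : f ≠ 0 := by
      rintro rfl
      apply hfg
      rw [degree_zero, eq_comm, degree_eq_bot] at h1
      rw [h1]; rfl
    rw [← h1, degree_eq_natDegree hf] at h3
    have h6 : f.natDegree = f.natDegree + 1 := by exact_mod_cast h3
    omega
  · intro i
    rintro _ ⟨v, hv, rfl⟩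
    exact gen_XX _ _ (hp0 i) (hq0 i) v hv
  · intro i
    rintro _ ⟨v, hv, rfl⟩
    exact gen_YY _ _ (hp0 i) (hq0 i) v hv

end CongCL
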