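import Pool.Agent.CongCL.FG

/-!
# Block CL: surface groups
-/

namespace CongCL

/-- The product of `g` commutators. The generator `a_i` is `(i, false)`, `b_i` is `(i, true)`. -/
def surfRel (g : ℕ) : FreeGroup (Fin g × Bool) :=
  (List.ofFn fun i : Fin g => FreeGroup.of (i, false) * FreeGroup.of (i, true) *
    (FreeGroup.of (i, false))⁻¹ * (FreeGroup.of (i, true))⁻¹).prod

/-- The fundamental group of the closed orientable surface of genus `g`. -/
abbrev SurfaceGroup (g : ℕ) : Type := PresentedGroup ({surfRel g} : Set (FreeGroup (Fin g × Bool)))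

variable {k : ℕ}

/-- The first handle. -/
def iA : FreeGroup (Fin 2) →* SurfaceGroup (k + 1) :=
  FreeGroup.lift ![PresentedGroup.of (0, false), PresentedGroup.of (0, true)]

/-- The other handles. -/
def iB : FreeGroup (Fin k × Bool) →* SurfaceGroup (k + 1) :=
  FreeGroup.lift fun p => PresentedGroup.of (p.1.succ, p.2)

/-- The boundary word of the other handles. -/
def cB : FreeGroup (Fin k × Bool) := (surfRel k)⁻¹

lemma surfRel_succ (k : ℕ) : surfRel (k + 1) =
    FreeGroup.of (0, false) * FreeGroup.of (0, true) *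
    (FreeGroup.of (0, false))⁻¹ * (FreeGroup.of (0, true))⁻¹ *
    (FreeGroup.lift (fun p : Fin k × Bool => FreeGroup.of (p.1.succ, p.2))) (surfRel k) := by
  rw [surfRel, List.ofFn_succ, List.prod_cons, surfRel, map_list_prod, List.map_ofFn]
  congr 2

lemma iA_cA : (iA cA : SurfaceGroup (k + 1)) = iB cB := by
  have h : (PresentedGroup.mk {surfRel (k + 1)} (surfRel (k + 1)) : SurfaceGroup (k + 1)) = 1 :=
    PresentedGroup.one_of_mem (by simp)
  have hB : (PresentedGroup.mk {surfRel (k + 1)})
      ((FreeGroup.lift (fun p : Fin k × Bool => FreeGroup.of (p.1.succ, p.2))) (surfRel k)) =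
      iB (surfRel k) := by
    have : (PresentedGroup.mk {surfRel (k + 1)}).comp
      (FreeGroup.lift (fun p : Fin k × Bool => FreeGroup.of (p.1.succ, p.2))) = iB := by
      ext p
      simp [iB]
      rfl
    rw [← this]
    rfl
  have h2 := congrArg (PresentedGroup.mk {surfRel (k + 1)}) (surfRel_succ k)
  rw [h, map_mul, hB] at h2
  rw [cB, map_inv, eq_inv_iff_mul_eq_one, h2]
  congr 1

/-- The universal property. -/
theorem exists_glue {H : Type*} [Group H] (fA : FreeGroup (Fin 2) →* H)
    (fB : FreeGroup (Fin k × Bool) →* H) (h : fA cA = fB cB) :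
    ∃ f : SurfaceGroup (k + 1) →* H, (∀ x, f (iA x) = fA x) ∧ ∀ y, f (iB y) = fB y := by
  let t : Fin (k + 1) × Bool → H := fun p =>
    Fin.cases (if p.2 then fA (FreeGroup.of 1) else fA (FreeGroup.of 0))
      (fun j => fB (FreeGroup.of (j, p.2))) p.1
  have ht0 : t (0, false) = fA (FreeGroup.of 0) := by simp [t]
  have ht1 : t (0, true) = fA (FreeGroup.of 1) := by simp [t]
  have hts : ∀ j e, t (Fin.succ j, e) = fB (FreeGroup.of (j, e)) := by
    intro j e; simp [t]
  have hB : ∀ y, FreeGroup.lift t ((FreeGroup.lift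
      (fun p : Fin k × Bool => FreeGroup.of (p.1.succ, p.2))) y) = fB y := by
    intro y
    have : (FreeGroup.lift t).comp (FreeGroup.lift
      (fun p : Fin k × Bool => FreeGroup.of (p.1.succ, p.2))) = fB := by
      ext p
      simp [hts]
    rw [← this]; rfl
  have hrel : ∀ r ∈ ({surfRel (k + 1)} : Set (FreeGroup (Fin (k + 1) × Bool))),
      FreeGroup.lift t r = 1 := by
    intro r hr
    rw [Set.mem_singleton_iff] at hr
    rw [hr, surfRel_succ, map_mul, hB]
    simp only [map_mul, map_inv, FreeGroup.lift_apply_of, ht0, ht1]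
    rw [cB, map_inv, eq_inv_iff_mul_eq_one] at h
    rw [← h, cA]
    simp only [map_mul, map_inv]
  refine ⟨PresentedGroup.toGroup hrel, ?_, ?_⟩
  · intro x
    have : (PresentedGroup.toGroup hrel).comp iA = fA := by
      ext i
      fin_cases i
      · simp [iA, PresentedGroup.toGroup.of, ht0]
      · simp [iA, PresentedGroup.toGroup.of, ht1]
    rw [← this]; rfl
  · intro y
    have : (PresentedGroup.toGroup hrel).comp iB = fB := by
      ext p
      simp [iB, PresentedGroup.toGroup.of, hts]
    rw [← this]; rfl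

lemma gen_top (S : Subgroup (SurfaceGroup (k + 1))) (hA : iA.range ≤ S) (hB : iB.range ≤ S) :
    S = ⊤ := by
  rw [eq_top_iff, ← PresentedGroup.closure_range_of ({surfRel (k + 1)}), Subgroup.closure_le]
  rintro _ ⟨⟨j, e⟩, rfl⟩
  refine Fin.cases ?_ (fun j => ?_) j
  · rcases e with _ | _
    · exact hA ⟨FreeGroup.of 0, by simp [iA]⟩
    · exact hA ⟨FreeGroup.of 1, by simp [iA]⟩
  · exact hB ⟨FreeGroup.of (j, e), by simp [iB]⟩

/-- The map from the other handles to the first handle: exchanges the roles of `a` and `b`. -/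
def rB : FreeGroup (Fin (k + 1) × Bool) →* FreeGroup (Fin 2) :=
  FreeGroup.lift fun p => if p.1 = 0 then (if p.2 then FreeGroup.of 0 else FreeGroup.of 1) else 1

lemma rB_cB : rB (cB : FreeGroup (Fin (k + 1) × Bool)) = cA := by
  rw [cB, surfRel_succ, map_inv, map_mul]
  have : rB ((FreeGroup.lift fun p : Fin k × Bool =>
      (FreeGroup.of (p.1.succ, p.2) : FreeGroup (Fin (k + 1) × Bool))) (surfRel k)) = 1 := by
    have h : (rB (k := k)).comp (FreeGroup.lift fun p : Fin k × Bool =>
      (FreeGroup.of (p.1.succ, p.2) : FreeGroup (Fin (k + 1) × Bool))) = 1 := by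
      ext p
      simp [rB]
    have := congrArg (fun f => f (surfRel k)) h
    simpa using this
  rw [this, mul_one]
  simp [rB, cA, mul_assoc]

lemma cB_not_power (v : FreeGroup (Fin (k + 1) × Bool)) (n : ℤ) (h : v ^ n = cB) :
    n = 1 ∨ n = -1 := by
  apply cA_not_power (rB v) n
  rw [← map_zpow, h, rB_cB]

/-- The retraction onto the first handle. -/
theorem exists_retraction : ∃ r : SurfaceGroup (k + 2) →* FreeGroup (Fin 2),
    ∀ x, r (iA x) = x := by
  obtain ⟨r, hr, -⟩ := exists_glue (k := k + 1) (MonoidHom.id _) rB (by rw [rB_cB]; rfl)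
  exact ⟨r, hr⟩

end CongCL
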