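import Pool.Agent.CongCL.Star
import Pool.Agent.CongCL.Free
import Pool.Agent.CongCL.Surf
import Pool.Agent.CongCL.Abs2
import Pool.Agent.FreeIdx2.Basic

/-!
# Block CL: the two faithful representations over `ℚ⟦X⟧`
-/

namespace CongCL

open Matrix

/-- forget the determinant -/
def toMat (S : Type) [CommRing S] :
    Matrix.SpecialLinearGroup (Fin 2) S →* Matrix (Fin 2) (Fin 2) S :=
  { toFun := fun g => g.1, map_one' := rfl, map_mul' := fun _ _ => rfl }

lemma toMat_inj (S : Type) [CommRing S] : Function.Injective (toMat S) :=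
  fun _ _ h => Subtype.ext h

/-- conjugation by an invertible matrix -/
def cj {S : Type} [CommRing S] (G G' : Matrix (Fin 2) (Fin 2) S) (h : G * G' = 1)
    (h' : G' * G = 1) : Matrix (Fin 2) (Fin 2) S →* Matrix (Fin 2) (Fin 2) S where
  toFun M := G' * M * G
  map_one' := by rw [mul_one, h']
  map_mul' M N := by
    calc G' * (M * N) * G = G' * M * (1 : Matrix (Fin 2) (Fin 2) S) * N * G := by
          rw [mul_one]; simp only [mul_assoc]
      _ = G' * M * G * (G' * N * G) := by rw [← h]; simp only [mul_assoc]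

lemma cj_apply {S : Type} [CommRing S] (G G' : Matrix (Fin 2) (Fin 2) S) (h : G * G' = 1)
    (h' : G' * G = 1) (M : Matrix (Fin 2) (Fin 2) S) : cj G G' h h' M = G' * M * G := rfl

lemma cj_inj {S : Type} [CommRing S] (G G' : Matrix (Fin 2) (Fin 2) S) (h : G * G' = 1)
    (h' : G' * G = 1) : Function.Injective (cj G G' h h') := by
  intro M N hMN
  rw [cj_apply, cj_apply] at hMN
  have h1 : ∀ M : Matrix (Fin 2) (Fin 2) S, G * (G' * M * G) * G' = M := by
    intro M
    calc G * (G' * M * G) * G' = (G * G') * M * (G * G') := by simp only [mul_assoc]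
      _ = M := by rw [h, one_mul, mul_one]
  rw [← h1 M, hMN, h1 N]

/-- `UP` on a free group follows from the generators. -/
lemma UP_of_gen {ι : Type} (f : FreeGroup ι →* Matrix (Fin 2) (Fin 2) R)
    (h : ∀ i, UP (f (FreeGroup.of i)) ∧ UP (f (FreeGroup.of i)⁻¹)) (x : FreeGroup ι) :
    UP (f x) := by
  induction x using FreeGroup.induction_on with
  | C1 => rw [map_one]; exact UP_one
  | of i => exact (h i).1
  | inv_of i _ => exact (h i).2
  | mul x y hx hy => rw [map_mul]; exact UP_mul hx hy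

/-! ### The first factor -/

open Polynomial in
/-- generators -/
noncomputable def A2 : Matrix.SpecialLinearGroup (Fin 2) (Polynomial ℤ) :=
  ⟨!![1, 2; 0, 1], by simp [Matrix.det_fin_two]⟩

open Polynomial in
/-- generators -/
noncomputable def B2 : Matrix.SpecialLinearGroup (Fin 2) (Polynomial ℤ) :=
  ⟨!![1, 0; X, 1], by simp [Matrix.det_fin_two]⟩

/-- the polynomial representation -/
noncomputable def a0 : FreeGroup (Fin 2) →* Matrix.SpecialLinearGroup (Fin 2) (Polynomial ℤ) :=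
  FreeGroup.lift ![A2, B2]

lemma a0_inj : Function.Injective a0 := by
  have h : (Matrix.SpecialLinearGroup.map (Polynomial.evalRingHom (2 : ℤ))).comp a0 =
      Pool.Agent.FreeIdx2.φ := by
    ext i : 1
    fin_cases i
    · apply Subtype.ext
      ext i j
      fin_cases i <;> fin_cases j <;>
        simp [a0, A2, Pool.Agent.FreeIdx2.φ, Pool.Agent.FreeIdx2.A]
    · apply Subtype.ext
      ext i j
      fin_cases i <;> fin_cases j <;>
        simp [a0, B2, Pool.Agent.FreeIdx2.φ, Pool.Agent.FreeIdx2.B]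
  have h1 := Pool.Agent.FreeIdx2.φ_injective
  rw [← h] at h1
  exact Function.Injective.of_comp (f := Matrix.SpecialLinearGroup.map
    (Polynomial.evalRingHom (2 : ℤ))) h1

lemma aeval_inj (ψ : R) (h0 : PowerSeries.constantCoeff ψ = 0) (hne : ψ ≠ 0) :
    Function.Injective (Polynomial.eval₂RingHom (Int.castRingHom R) ψ) := by
  rw [injective_iff_map_eq_zero]
  intro f
  induction hn : f.natDegree using Nat.strong_induction_on generalizing f with
  | _ n ih =>
  intro hf
  have e := Polynomial.divX_mul_X_add f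
  rw [← e, map_add, map_mul] at hf
  simp only [Polynomial.coe_eval₂RingHom, Polynomial.eval₂_X, Polynomial.eval₂_C] at hf
  have hc : f.coeff 0 = 0 := by
    have := congrArg (PowerSeries.constantCoeff (R := ℚ)) hf
    simpa [h0] using this
  rw [hc, map_zero, add_zero] at hf
  have hd : Polynomial.eval₂ (Int.castRingHom R) ψ f.divX = 0 := by
    rcases mul_eq_zero.mp hf with h | h
    · exact h
    · exact absurd h hne
  have hdz : f.divX = 0 := by
    by_cases hn0 : n = 0
    · have hf0 : f = 0 := by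
        rw [Polynomial.eq_C_of_natDegree_eq_zero (hn.trans hn0), hc, map_zero]
      rw [hf0, Polynomial.divX_zero]
    · refine ih f.divX.natDegree ?_ f.divX rfl hd
      rw [Polynomial.natDegree_divX_eq_natDegree_tsub_one]
      omega
  rw [← e, hdz, hc]
  simp

/-- the representation of the first factor, before diagonalisation -/
noncomputable def aA (ψ : R) : FreeGroup (Fin 2) →* Matrix (Fin 2) (Fin 2) R :=
  (toMat R).comp ((Matrix.SpecialLinearGroup.map
    (Polynomial.eval₂RingHom (Int.castRingHom R) ψ)).comp a0)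

lemma aA_inj (ψ : R) (h0 : PowerSeries.constantCoeff ψ = 0) (hne : ψ ≠ 0) :
    Function.Injective (aA ψ) := by
  intro x y hxy
  apply a0_inj
  have h1 := toMat_inj R hxy
  apply Subtype.ext
  have h2 := congrArg Subtype.val h1
  ext1 i j
  have h3 := congrFun (congrFun h2 i) j
  exact aeval_inj ψ h0 hne h3

lemma aA_0 (ψ : R) : aA ψ (FreeGroup.of 0) = !![1, 2; 0, 1] := by
  ext i j : 2
  fin_cases i <;> fin_cases j <;> simp [aA, toMat, a0, A2]

lemma aA_1 (ψ : R) : aA ψ (FreeGroup.of 1) = !![1, 0; ψ, 1] := by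
  ext i j : 2
  fin_cases i <;> fin_cases j <;> simp [aA, toMat, a0, B2]

lemma aA_0' (ψ : R) : aA ψ (FreeGroup.of 0)⁻¹ = !![1, -2; 0, 1] := by
  ext i j : 2
  fin_cases i <;> fin_cases j <;> simp [aA, toMat, a0, A2, Matrix.adjugate_fin_two]

lemma aA_1' (ψ : R) : aA ψ (FreeGroup.of 1)⁻¹ = !![1, 0; -ψ, 1] := by
  ext i j : 2
  fin_cases i <;> fin_cases j <;> simp [aA, toMat, a0, B2, Matrix.adjugate_fin_two]

lemma aA_cA (ψ : R) : aA ψ cA = !![1 + 2 * ψ + 4 * ψ ^ 2, -(4 * ψ); 2 * ψ ^ 2, 1 - 2 * ψ] := by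
  rw [cA, map_mul, map_mul, map_mul, aA_0, aA_1, aA_0', aA_1', Matrix.mul_fin_two,
    Matrix.mul_fin_two, Matrix.mul_fin_two]
  apply mk_eq <;> ring

lemma aA_UP (ψ : R) (h : ∃ w, ψ = PowerSeries.X * w) (x : FreeGroup (Fin 2)) :
    UP (aA ψ x) := by
  obtain ⟨w, hw⟩ := h
  apply UP_of_gen
  intro i
  fin_cases i
  · refine ⟨?_, ?_⟩
    · show UP (aA ψ (FreeGroup.of 0))
      rw [aA_0]
      exact ⟨⟨0, by simp⟩, ⟨0, by simp⟩, ⟨0, by simp⟩⟩
    · show UP (aA ψ (FreeGroup.of 0)⁻¹)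
      rw [aA_0']
      exact ⟨⟨0, by simp⟩, ⟨0, by simp⟩, ⟨0, by simp⟩⟩
  · refine ⟨?_, ?_⟩
    · show UP (aA ψ (FreeGroup.of 1))
      rw [aA_1]
      exact ⟨⟨0, by simp⟩, ⟨0, by simp⟩, ⟨w, by simp [hw]⟩⟩
    · show UP (aA ψ (FreeGroup.of 1)⁻¹)
      rw [aA_1']
      exact ⟨⟨0, by simp⟩, ⟨0, by simp⟩, ⟨-w, by simp [hw]⟩⟩

/-! ### The second factor -/

/-- index of a generator -/
def idx {k : ℕ} (p : Fin k × Bool) : ℕ := 2 * p.1.val + (if p.2 then 1 else 0)

lemma idx_inj {k : ℕ} : Function.Injective (idx (k := k)) := by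
  rintro ⟨i, e⟩ ⟨j, f⟩ h
  simp only [idx] at h
  rcases e with _ | _ <;> rcases f with _ | _ <;> simp at h ⊢ <;> omega

/-- first parameter -/
def pp {k : ℕ} (p : Fin k × Bool) : ℚ := idx p + 1
/-- second parameter -/
def qq {k : ℕ} (p : Fin k × Bool) : ℚ := (idx p + 1) ^ 2

lemma pp_pos {k : ℕ} (p : Fin k × Bool) : 0 < pp p := by unfold pp; positivity
lemma qq_pos {k : ℕ} (p : Fin k × Bool) : 0 < qq p := by unfold qq; positivity

lemma pp_inj {k : ℕ} : Function.Injective (pp (k := k)) := by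
  intro x y h
  apply idx_inj
  simp only [pp] at h
  have : (idx x : ℚ) = idx y := by linarith
  exact_mod_cast this

lemma qq_inj {k : ℕ} : Function.Injective (qq (k := k)) := by
  intro x y h
  apply pp_inj
  have h1 : qq x = pp x ^ 2 := rfl
  have h2 : qq y = pp y ^ 2 := rfl
  rw [h1, h2] at h
  exact (pow_left_inj₀ (pp_pos x).le (pp_pos y).le two_ne_zero).mp h

/-- the representation of the second factor, before diagonalisation -/
noncomputable def bB (k : ℕ) : FreeGroup (Fin k × Bool) →* Matrix (Fin 2) (Fin 2) R :=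
  (toMat R).comp ((Matrix.SpecialLinearGroup.map
    (Polynomial.coeToPowerSeries.ringHom (R := ℚ))).comp
      (FreeGroup.lift fun p => gen (pp p) (qq p)))

lemma bB_inj (k : ℕ) : Function.Injective (bB (k + 1)) := by
  intro x y hxy
  haveI : Nontrivial (Fin (k + 1) × Bool) := ⟨(0, false), (0, true), by simp⟩
  apply free_inj (ι := Fin (k + 1) × Bool) pp qq pp_inj qq_inj (fun i => (pp_pos i).ne')
    (fun i => (qq_pos i).ne')
  have h1 := toMat_inj R hxy
  apply Subtype.ext
  have h2 := congrArg Subtype.val h1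
  ext1 i j
  have h3 := congrFun (congrFun h2 i) j
  exact Polynomial.coe_injective ℚ h3

open PowerSeries in
lemma bB_of {k : ℕ} (p : Fin k × Bool) : bB k (FreeGroup.of p) =
    !![1 + C (pp p) * C (qq p) * X, C (pp p); C (qq p) * X, 1] := by
  ext i j : 2
  fin_cases i <;> fin_cases j <;> simp [bB, toMat, gen]

open PowerSeries in
lemma bB_of' {k : ℕ} (p : Fin k × Bool) : bB k (FreeGroup.of p)⁻¹ =
    !![1, -C (pp p); -(C (qq p) * X), 1 + C (pp p) * C (qq p) * X] := by
  ext i j : 2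
  fin_cases i <;> fin_cases j <;> simp [bB, toMat, gen, Matrix.adjugate_fin_two]

open PowerSeries in
lemma bB_UP (k : ℕ) (x : FreeGroup (Fin k × Bool)) : UP (bB k x) := by
  apply UP_of_gen
  intro p
  refine ⟨?_, ?_⟩
  · rw [bB_of]
    exact ⟨⟨C (pp p) * C (qq p), by simp; ring⟩, ⟨0, by simp⟩, ⟨C (qq p), by simp; ring⟩⟩
  · rw [bB_of']
    exact ⟨⟨0, by simp⟩, ⟨C (pp p) * C (qq p), by simp; ring⟩, ⟨-C (qq p), by simp; ring⟩⟩

open PowerSeries in
lemma near_comm (p q p' q' : ℚ) : Near (p * q' - p' * q)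
    (!![1 + C p * C q * X, C p; C q * X, 1] * !![1 + C p' * C q' * X, C p'; C q' * X, 1] *
      !![1, -C p; -(C q * X), 1 + C p * C q * X] *
      !![1, -C p'; -(C q' * X), 1 + C p' * C q' * X]) := by
  rw [Matrix.mul_fin_two, Matrix.mul_fin_two, Matrix.mul_fin_two]
  have hk : (C (p * q' - p' * q) : R) = C p * C q' - C p' * C q := by
    rw [map_sub, map_mul, map_mul]
  refine ⟨⟨C p*C p'*C q'^2 - C p*C q*C p'*C q' - C p*C q^2*C p' + C p^2*C q'^2 +
      X*C p^2*C q*C p'*C q'^2 - X*C p^2*C q^2*C p'*C q', ?_⟩,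
    ⟨C q*C p'^2 - 2*C p*C p'*C q' + 2*C p*C q*C p' - C p^2*C q' - X*C p*C p'^2*C q'^2 +
      X*C p*C q*C p'^2*C q' + X*C p*C q^2*C p'^2 - X*C p^2*C p'*C q'^2 -
      X*C p^2*C q*C p'*C q' + X*C p^2*C q^2*C p' - X^2*C p^2*C q*C p'^2*C q'^2 +
      X^2*C p^2*C q^2*C p'^2*C q', ?_⟩,
    ⟨-C q^2*C p' + C p*C q'^2 + X*C p*C q*C p'*C q'^2 - X*C p*C q^2*C p'*C q', ?_⟩,
    ⟨C q^2*C p'^2 - C p*C p'*C q'^2 - C p*C q*C p'*C q' + C p*C q^2*C p' -
      X*C p*C q*C p'^2*C q'^2 + X*C p*C q^2*C p'^2*C q', ?_⟩⟩ <;>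
  · simp only [Matrix.of_apply, Matrix.cons_val', Matrix.cons_val_zero, Matrix.cons_val_one,
      Matrix.cons_val_fin_one, hk]
    ring

lemma near_ofFn (k : ℕ) : ∀ (M : Fin k → Matrix (Fin 2) (Fin 2) R) (κ : Fin k → ℚ),
    (∀ i, Near (κ i) (M i)) → Near (∑ i, κ i) (List.ofFn M).prod := by
  induction k with
  | zero => intro M κ _; simpa using Near_one
  | succ k ih =>
    intro M κ h
    rw [List.ofFn_succ, List.prod_cons, Fin.sum_univ_succ]
    exact Near_mul (h 0) (ih _ _ (fun i => h i.succ))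

lemma near_surfRel (k : ℕ) : ∃ κ : ℚ, 0 < κ ∧ Near κ (bB (k + 1) (surfRel (k + 1))) := by
  refine ⟨∑ i : Fin (k + 1), (pp (i, false) * qq (i, true) - pp (i, true) * qq (i, false)), ?_, ?_⟩
  · apply Finset.sum_pos
    · intro i _
      simp only [pp, qq, idx]
      push_cast
      have : (0 : ℚ) ≤ (i.val : ℚ) := by positivity
      nlinarith [mul_nonneg this this]
    · exact Finset.univ_nonempty
  · rw [surfRel, map_list_prod, List.map_ofFn]
    apply near_ofFn
    intro i
    simp only [Function.comp, map_mul, bB_of, bB_of']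
    exact near_comm _ _ _ _

lemma near_inv {κ : ℚ} {F : Type} [Group F] (f : F →* Matrix.SpecialLinearGroup (Fin 2) R)
    (x : F) (h : Near κ ((toMat R).comp f x)) : Near (-κ) ((toMat R).comp f x⁻¹) := by
  have e : (toMat R).comp f x⁻¹ = !![((toMat R).comp f x) 1 1, -((toMat R).comp f x) 0 1;
      -((toMat R).comp f x) 1 0, ((toMat R).comp f x) 0 0] := by
    rw [MonoidHom.comp_apply, map_inv]
    exact (Matrix.SpecialLinearGroup.coe_inv _).trans (Matrix.adjugate_fin_two _)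
  obtain ⟨⟨a, ha⟩, ⟨b, hb⟩, ⟨c, hc⟩, ⟨d, hd⟩⟩ := h
  rw [e]
  refine ⟨⟨d, ?_⟩, ⟨-b, ?_⟩, ⟨-c, ?_⟩, ⟨a, ?_⟩⟩
  · simp [hd]; ring
  · simp [hb]
  · simp [hc]
  · simp [ha]

lemma det_toMat {F : Type} [Group F] (f : F →* Matrix.SpecialLinearGroup (Fin 2) R)
    (x : F) : ((toMat R).comp f x) 0 0 * ((toMat R).comp f x) 1 1 -
      ((toMat R).comp f x) 0 1 * ((toMat R).comp f x) 1 0 = 1 := by
  have h := (f x).det_coe
  rw [Matrix.det_fin_two] at h
  exact h

end CongCL
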