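import Pool.Agent.CongCL.Diag

/-!
# Block CL: only powers of `c` fix an eigenline of `c`
-/

namespace CongCL

open Matrix

section

variable {F : Type*} [Group F] (α : F →* Matrix (Fin 2) (Fin 2) R)

omit [Group F] in
lemma int_cast_zero (i : ℤ) (h : (i : R) = 0) : i = 0 := by
  have := congrArg (PowerSeries.constantCoeff (R := ℚ)) h
  simpa using this

lemma inv_entries (x : F) : α x * α x⁻¹ = 1 ∧ α x⁻¹ * α x = 1 := by
  constructor
  · rw [← map_mul, mul_inv_cancel, map_one]
  · rw [← map_mul, inv_mul_cancel, map_one]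

lemma upper_inv (x : F) (hx : α x 1 0 = 0) : α x⁻¹ 1 0 = 0 ∧ α x 0 0 * α x⁻¹ 0 0 = 1 ∧
    α x 1 1 * α x⁻¹ 1 1 = 1 := by
  have h := (inv_entries α x).1
  rw [Matrix.eta_fin_two (α x), Matrix.eta_fin_two (α x⁻¹), Matrix.mul_fin_two,
    Matrix.one_fin_two, hx] at h
  have h00 := congrFun (congrFun h 0) 0
  have h10 := congrFun (congrFun h 1) 0
  have h11 := congrFun (congrFun h 1) 1
  simp only [Matrix.of_apply, Matrix.cons_val', Matrix.cons_val_zero, Matrix.cons_val_one,
    Matrix.cons_val_fin_one, zero_mul, zero_add] at h00 h10 h11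
  have h0 : α x⁻¹ 1 0 = 0 := by
    have : α x⁻¹ 1 0 = (α x 1 1 * α x⁻¹ 1 1) * α x⁻¹ 1 0 := by rw [h11, one_mul]
    rw [this]
    linear_combination (α x⁻¹ 1 1) * h10
  refine ⟨h0, ?_, h11⟩
  rw [h0] at h00
  linear_combination h00

lemma unip_zpow (z : F) (b : R) (hz : α z = !![1, b; 0, 1]) (n : ℤ) :
    α (z ^ n) = !![1, (n : R) * b; 0, 1] := by
  have hnat : ∀ m : ℕ, α (z ^ m) = !![1, (m : R) * b; 0, 1] := by
    intro m
    induction m with
    | zero => rw [pow_zero, map_one, Matrix.one_fin_two]; apply mk_eq <;> simp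
    | succ m ih =>
      rw [pow_succ, map_mul, ih, hz, Matrix.mul_fin_two]
      apply mk_eq
      · ring
      · push_cast; ring
      · ring
      · ring
  rcases Int.eq_nat_or_neg n with ⟨m, rfl | rfl⟩
  · rw [zpow_natCast, hnat]; simp
  · rw [_root_.zpow_neg, zpow_natCast]
    have h1 := hnat m
    have h2 : α (z ^ m)⁻¹ * α (z ^ m) = 1 := (inv_entries α _).2
    have h3 : α (z ^ m) * !![1, ((-(m : ℤ) : ℤ) : R) * b; 0, 1] = 1 := by
      rw [h1, Matrix.mul_fin_two, Matrix.one_fin_two]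
      apply mk_eq
      · ring
      · push_cast; ring
      · ring
      · ring
    calc α (z ^ m)⁻¹ = α (z ^ m)⁻¹ * (α (z ^ m) * !![1, ((-(m : ℤ) : ℤ) : R) * b; 0, 1]) := by
          rw [h3, mul_one]
      _ = !![1, ((-(m : ℤ) : ℤ) : R) * b; 0, 1] := by rw [← mul_assoc, h2, one_mul]

theorem star (hα : Function.Injective α) (c : F) (lam mu : R) (hc : α c = !![lam, 0; 0, mu])
    (hlm : lam * mu = 1) (hnc : ∀ i j : ℤ, (i : R) = (j : R) * lam ^ 2 → j = 0)
    (hcp : ∀ z w : F, z * w = w * z → ∃ i j : ℤ, (i ≠ 0 ∨ j ≠ 0) ∧ z ^ i = w ^ j)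
    (hcent : ∀ x, x * c = c * x → x ∈ Subgroup.zpowers c) (x : F) (hx : α x 1 0 = 0) :
    x ∈ Subgroup.zpowers c := by
  apply hcent
  obtain ⟨h0, h1, h2⟩ := upper_inv α x hx
  have hci : α c⁻¹ = !![mu, 0; 0, lam] := by
    have h3 : α c⁻¹ * α c = 1 := (inv_entries α c).2
    have h4 : α c * !![mu, 0; 0, lam] = 1 := by
      rw [hc, Matrix.mul_fin_two, Matrix.one_fin_two]
      apply mk_eq
      · linear_combination hlm
      · ring
      · ring
      · linear_combination hlm
    calc α c⁻¹ = α c⁻¹ * (α c * !![mu, 0; 0, lam]) := by rw [h4, mul_one]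
      _ = !![mu, 0; 0, lam] := by rw [← mul_assoc, h3, one_mul]
  set z := x * c * x⁻¹ * c⁻¹ with hzdef
  have hz : ∃ b, α z = !![1, b; 0, 1] := by
    refine ⟨(α x 0 0 * lam * α x⁻¹ 0 1 + α x 0 1 * mu * α x⁻¹ 1 1) * lam, ?_⟩
    rw [hzdef, map_mul, map_mul, map_mul, hc, hci]
    conv_lhs => rw [Matrix.eta_fin_two (α x), Matrix.eta_fin_two (α x⁻¹), hx, h0]
    rw [Matrix.mul_fin_two, Matrix.mul_fin_two, Matrix.mul_fin_two]
    apply mk_eq
    · linear_combination (α x 0 0 * α x⁻¹ 0 0) * hlm + h1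
    · ring
    · ring
    · linear_combination (α x 1 1 * α x⁻¹ 1 1) * hlm + h2
  obtain ⟨b, hb⟩ := hz
  set w := c * z * c⁻¹ with hwdef
  have hw : α w = !![1, lam ^ 2 * b; 0, 1] := by
    rw [hwdef, map_mul, map_mul, hc, hci, hb, Matrix.mul_fin_two, Matrix.mul_fin_two]
    apply mk_eq
    · linear_combination hlm
    · ring
    · ring
    · linear_combination hlm
  have hzw : z * w = w * z := by
    apply hα
    rw [map_mul α z w, map_mul α w z, hb, hw, Matrix.mul_fin_two, Matrix.mul_fin_two]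
    apply mk_eq <;> ring
  obtain ⟨i, j, hij, he⟩ := hcp z w hzw
  have h5 := congrArg α he
  rw [unip_zpow α z b hb, unip_zpow α w _ hw] at h5
  have h6 := congrFun (congrFun h5 0) 1
  simp only [Matrix.of_apply, Matrix.cons_val', Matrix.cons_val_zero, Matrix.cons_val_one,
    Matrix.cons_val_fin_one] at h6
  have hb0 : b = 0 := by
    by_contra hb0
    have h7 : (i : R) = (j : R) * lam ^ 2 := by
      apply mul_right_cancel₀ hb0
      rw [h6]; ring
    have hj := hnc i j h7
    rw [hj, Int.cast_zero, zero_mul] at h7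
    have hi : i = 0 := int_cast_zero i h7
    rcases hij with h | h
    · exact h hi
    · exact h hj
  have hz1 : z = 1 := by
    apply hα
    rw [hb, hb0, map_one, Matrix.one_fin_two]
  rw [hzdef] at hz1
  have h8 : x * c * x⁻¹ = c := mul_inv_eq_one.mp hz1
  calc x * c = (x * c * x⁻¹) * x := by group
    _ = c * x := by rw [h8]

/-- The inverse transpose representation. -/
noncomputable def invT : F →* Matrix (Fin 2) (Fin 2) R where
  toFun x := (α x⁻¹)ᵀ
  map_one' := by simp
  map_mul' x y := by rw [_root_.mul_inv_rev, map_mul, Matrix.transpose_mul]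

theorem star' (hα : Function.Injective α) (c : F) (lam mu : R) (hc : α c = !![lam, 0; 0, mu])
    (hlm : lam * mu = 1) (hnc : ∀ i j : ℤ, (i : R) = (j : R) * mu ^ 2 → j = 0)
    (hcp : ∀ z w : F, z * w = w * z → ∃ i j : ℤ, (i ≠ 0 ∨ j ≠ 0) ∧ z ^ i = w ^ j)
    (hcent : ∀ x, x * c = c * x → x ∈ Subgroup.zpowers c) (x : F) (hx : α x 0 1 = 0) :
    x ∈ Subgroup.zpowers c := by
  have h : x⁻¹ ∈ Subgroup.zpowers c := by
    refine star (invT α) ?_ c mu lam ?_ (by rw [mul_comm]; exact hlm) hnc hcp hcent x⁻¹ ?_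
    · intro x y hxy
      have : α x⁻¹ = α y⁻¹ := Matrix.transpose_injective hxy
      exact inv_injective (hα this)
    · have h3 : α c⁻¹ * α c = 1 := (inv_entries α c).2
      have h4 : α c * !![mu, 0; 0, lam] = 1 := by
        rw [hc, Matrix.mul_fin_two, Matrix.one_fin_two]
        apply mk_eq
        · linear_combination hlm
        · ring
        · ring
        · linear_combination hlm
      have h5 : α c⁻¹ = !![mu, 0; 0, lam] := by
        calc α c⁻¹ = α c⁻¹ * (α c * !![mu, 0; 0, lam]) := by rw [h4, mul_one]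
          _ = !![mu, 0; 0, lam] := by rw [← mul_assoc, h3, one_mul]
      show (α c⁻¹)ᵀ = _
      rw [h5]
      ext i j
      fin_cases i <;> fin_cases j <;> rfl
    · show (α (x⁻¹)⁻¹)ᵀ 1 0 = 0
      rw [inv_inv, Matrix.transpose_apply, hx]
  rw [← inv_inv x]
  exact Subgroup.inv_mem _ h

end

open PowerSeries in
lemma not_rational (k : ℚ) (hk : k ≠ 0) (lam : R) (h : ∃ w, lam = 1 + X * C k + X ^ 2 * w)
    (i j : ℤ) (hij : (i : R) = (j : R) * lam ^ 2) : j = 0 := by
  obtain ⟨w, rfl⟩ := h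
  have h1 : (i : R) = C (i : ℚ) := by simp
  have h2 : (j : R) = C (j : ℚ) := by simp
  have e : (1 + X * C k + X ^ 2 * w) ^ 2 = (1 : R) + X * (C k + C k) +
      X ^ 2 * (2 * w + C k ^ 2 + 2 * X * C k * w + X ^ 2 * w ^ 2) := by ring
  rw [h1, h2, e, ← map_add] at hij
  have h3 := congrArg (coeff 1) hij
  rw [coeff_C, if_neg one_ne_zero, coeff_C_mul, map_add, map_add, coeff_one, if_neg one_ne_zero,
    zero_add, coeff_X_pow_mul', if_neg (by norm_num), add_zero, coeff_succ_X_mul 0] at h3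
  rw [coeff_zero_C] at h3
  have h4 : (j : ℚ) = 0 := by
    rcases mul_eq_zero.mp h3.symm with h | h
    · exact h
    · exact absurd (by linarith : k = 0) hk
  exact_mod_cast h4

end CongCL
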